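import Mathlib

/-!
# Cycle matroids of graphs with labelled edges

Definitions for MP_bd026d_co, and the construction of the cycle matroid.
-/

set_option autoImplicit false

open Classical

namespace Pool.Agent.Q230.TGM

open Graph

/-- The finite set `F` of edges is even: each vertex is an end of an even number of the edges in
`F` which are not loops. -/
def EvenSet (G : Graph ℕ ℕ) (F : Finset ℕ) : Prop :=
  ∀ z, Even (F.filter (fun e => G.IsNonloopAt e z)).card

/-- The finite set `F` of edges of `G` is a forest: none of its nonempty subsets is even (that is,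
it contains no cycle). -/
def Forest (G : Graph ℕ ℕ) (F : Finset ℕ) : Prop :=
  (F : Set ℕ) ⊆ E(G) ∧ ∀ F' ⊆ F, F'.Nonempty → ¬ EvenSet G F'

/-- the incidence vector of an edge modulo two -/
noncomputable def vec (G : Graph ℕ ℕ) (e : ℕ) : ℕ → ZMod 2 :=
  fun z => if G.IsNonloopAt e z then 1 else 0

theorem sum_vec (G : Graph ℕ ℕ) (F : Finset ℕ) (z : ℕ) :
    (∑ e ∈ F, vec G e) z = ((F.filter (fun e => G.IsNonloopAt e z)).card : ZMod 2) := by
  rw [Finset.sum_apply]
  simp only [vec]
  rw [Finset.sum_boole]

theorem evenSet_iff (G : Graph ℕ ℕ) (F : Finset ℕ) : EvenSet G F ↔ ∑ e ∈ F, vec G e = 0 := by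
  constructor
  · intro h
    funext z
    rw [sum_vec]
    exact (ZMod.natCast_eq_zero_iff_even).2 (h z)
  · intro h z
    have := congrFun h z
    rw [sum_vec] at this
    exact (ZMod.natCast_eq_zero_iff_even).1 this

theorem zmod2 (a : ZMod 2) : a = 0 ∨ a = 1 := by
  revert a
  decide

theorem forest_iff (G : Graph ℕ ℕ) (F : Finset ℕ) :
    Forest G F ↔ (F : Set ℕ) ⊆ E(G) ∧ LinearIndepOn (ZMod 2) (vec G) (F : Set ℕ) := by
  refine and_congr_right fun _ => ?_
  rw [linearIndepOn_finset_iff]
  constructor
  · intro h g hg i hi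
    by_contra h0
    apply h (F.filter (fun e => g e ≠ 0)) (Finset.filter_subset _ _)
      ⟨i, Finset.mem_filter.2 ⟨hi, h0⟩⟩
    rw [evenSet_iff, ← hg, Finset.sum_filter]
    refine Finset.sum_congr rfl fun e _ => ?_
    rcases zmod2 (g e) with h1 | h1
    · simp [h1]
    · simp [h1]
  · intro h F' hF' hne he
    rw [evenSet_iff] at he
    obtain ⟨i, hi⟩ := hne
    have := h (fun e => if e ∈ F' then 1 else 0) (by
      rw [← he, ← Finset.sum_subset hF']
      · refine Finset.sum_congr rfl fun e he => ?_
        simp [he]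
      · intro e _ he
        simp [he]) i (hF' hi)
    simp [hi] at this

theorem span_finrank {G : Graph ℕ ℕ} {F : Finset ℕ}
    (h : LinearIndepOn (ZMod 2) (vec G) (F : Set ℕ)) :
    Module.finrank (ZMod 2) (Submodule.span (ZMod 2) (vec G '' (F : Set ℕ))) = F.card := by
  have h1 := finrank_span_eq_card (R := ZMod 2) (b := fun x : (F : Set ℕ) => vec G x) h
  rw [show Set.range (fun x : (F : Set ℕ) => vec G x) = vec G '' (F : Set ℕ) by
    ext v; simp] at h1
  rw [h1]
  simp

/-- The cycle matroid of a graph: its ground set is the set of the edges, and a finite set of edges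
is independent if it is a forest. -/
noncomputable def cycleMatroid (G : Graph ℕ ℕ) : Matroid ℕ :=
  (IndepMatroid.ofFinset E(G) (Forest G)
    (by
      refine ⟨by simp, fun F' hF' hne => ?_⟩
      rw [Finset.subset_empty] at hF'
      simp [hF'] at hne)
    (fun I J hJ hIJ => ⟨(Finset.coe_subset.2 hIJ).trans hJ.1,
      fun F' hF' => hJ.2 F' (hF'.trans hIJ)⟩)
    (by
      intro I J hI hJ hlt
      rw [forest_iff] at hI hJ
      by_contra hno
      push Not at hno
      have h1 : Submodule.span (ZMod 2) (vec G '' (J : Set ℕ)) ≤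
          Submodule.span (ZMod 2) (vec G '' (I : Set ℕ)) := by
        rw [Submodule.span_le]
        rintro _ ⟨e, he, rfl⟩
        by_cases heI : e ∈ I
        · exact Submodule.subset_span ⟨e, heI, rfl⟩
        · have h2 := hno e he heI
          rw [forest_iff] at h2
          rw [SetLike.mem_coe, hI.2.mem_span_iff]
          intro h3
          exfalso
          apply h2
          rw [Finset.coe_insert]
          exact ⟨Set.insert_subset (hJ.1 he) hI.1, h3⟩
      haveI : FiniteDimensional (ZMod 2) (Submodule.span (ZMod 2) (vec G '' (I : Set ℕ))) :=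
        FiniteDimensional.span_of_finite _ ((Finset.finite_toSet I).image _)
      have h2 := Submodule.finrank_mono h1
      rw [span_finrank hI.2, span_finrank hJ.2] at h2
      omega)
    (fun I hI => hI.1)).matroid

theorem cycleMatroid_E (G : Graph ℕ ℕ) : (cycleMatroid G).E = E(G) := rfl

theorem cycleMatroid_indep (G : Graph ℕ ℕ) (I : Set ℕ) :
    (cycleMatroid G).Indep I ↔ ∀ F : Finset ℕ, (F : Set ℕ) ⊆ I → Forest G F := by
  rw [cycleMatroid, IndepMatroid.matroid_indep_iff, IndepMatroid.ofFinset_indep']

theorem cycleMatroid_indep_finset (G : Graph ℕ ℕ) (F : Finset ℕ) :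
    (cycleMatroid G).Indep F ↔ Forest G F := by
  rw [cycleMatroid, IndepMatroid.matroid_indep_iff, IndepMatroid.ofFinset_indep]

end Pool.Agent.Q230.TGM
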