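import Pool.Agent.Q230.TGM.Cyc

/-!
# Temporal sequences of matroids

Definitions for MP_bd026d_co and first lemmas.
-/

set_option autoImplicit false

open Classical

namespace Pool.Agent.Q230.TGM

open Graph

/-- `u` and `v` are joined in `H` by a walk all edges of which are in `C`. -/
def Joined (H : Graph ℕ ℕ) (C : Set ℕ) (u v : ℕ) : Prop :=
  Relation.ReflTransGen (fun a b => ∃ e ∈ C, H.IsLink e a b) u v

/-- `G` is a minor of `H`, where the edges keep their labels and the vertices may be renamed:
for some set `C` of edges which are not in `G`, `G` is a subgraph of the graph obtained from `H` by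
contracting the edges in `C`, that is, by identifying the vertices which are joined by walks in
`C`. -/
def GMinor (G H : Graph ℕ ℕ) : Prop :=
  ∃ (C : Set ℕ) (φ : ℕ → ℕ), Disjoint C E(G) ∧
    (∀ u ∈ V(H), ∀ v ∈ V(H), φ u = φ v ↔ Joined H C u v) ∧ G ≤ H.map φ

/-- A temporal sequence of matroids: of any two consecutive matroids one is a minor of the other. -/
def Temporal (L : List (Matroid ℕ)) : Prop :=
  L.IsChain (fun M N => M ≤m N ∨ N ≤m M)

/-- The sequence of matroids is simultaneously graphic: there are finite graphs with these cycle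
matroids such that each minor relation between consecutive matroids is a minor relation between
the graphs. -/
def SimGraphic (L : List (Matroid ℕ)) : Prop :=
  ∃ P : List (Matroid ℕ × Graph ℕ ℕ), P.map Prod.fst = L ∧
    (∀ p ∈ P, V(p.2).Finite ∧ E(p.2).Finite ∧ cycleMatroid p.2 = p.1) ∧
    P.IsChain (fun p q => (p.1 ≤m q.1 → GMinor p.2 q.2) ∧ (q.1 ≤m p.1 → GMinor q.2 p.2))

/-- The graph given by a list of its edges: a member `(e, x, y)` of the list is the edge with the
label `e` and the ends `x` and `y` (if a label occurs more than once, its first occurrence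
counts). -/
def ofCode (c : List (ℕ × ℕ × ℕ)) : Graph ℕ ℕ where
  vertexSet := {x | ∃ e y, c.lookup e = some (x, y) ∨ c.lookup e = some (y, x)}
  IsLink e x y := c.lookup e = some (x, y) ∨ c.lookup e = some (y, x)
  edgeSet := {e | ∃ x y, c.lookup e = some (x, y) ∨ c.lookup e = some (y, x)}
  isLink_symm := by
    intro e _
    exact ⟨fun x y h => h.symm⟩
  eq_or_eq_of_isLink_of_isLink := by
    rintro e x y v w (h | h) (h' | h') <;> rw [h] at h' <;> simp only [Option.some.injEq,
      Prod.mk.injEq] at h' <;> tauto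
  edge_mem_iff_exists_isLink := fun _ => Iff.rfl
  left_mem_of_isLink := fun e x y h => ⟨e, y, h⟩

/-- The sequence of matroids given by a sequence of graphs: their cycle matroids. -/
noncomputable def matroids (I : List (List (ℕ × ℕ × ℕ))) : List (Matroid ℕ) :=
  I.map fun c => cycleMatroid (ofCode c)

/-! ### Lemmas on cycle matroids -/

theorem forest_of_eq {G H : Graph ℕ ℕ} (h : cycleMatroid G = cycleMatroid H) (F : Finset ℕ) :
    Forest G F ↔ Forest H F := by
  rw [← cycleMatroid_indep_finset, h, cycleMatroid_indep_finset]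

theorem edges_of_eq {G H : Graph ℕ ℕ} (h : cycleMatroid G = cycleMatroid H) : E(G) = E(H) := by
  rw [← cycleMatroid_E, h, cycleMatroid_E]

theorem cycleMatroid_congr {G H : Graph ℕ ℕ} (hE : E(G) = E(H))
    (h : ∀ F : Finset ℕ, (F : Set ℕ) ⊆ E(G) → (EvenSet G F ↔ EvenSet H F)) :
    cycleMatroid G = cycleMatroid H := by
  refine Matroid.ext_indep hE fun I _ => ?_
  rw [cycleMatroid_indep, cycleMatroid_indep]
  refine forall_congr' fun F => imp_congr_right fun _ => ?_
  unfold Forest
  rw [hE]
  refine and_congr_right fun hF => ?_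
  refine forall_congr' fun F' => imp_congr_right fun hF' => imp_congr_right fun _ => ?_
  rw [h F' (hE ▸ (Finset.coe_subset.2 hF').trans hF)]

theorem evenSet_le {G H : Graph ℕ ℕ} (hle : G ≤ H) {F : Finset ℕ} (hF : (F : Set ℕ) ⊆ E(G)) :
    EvenSet G F ↔ EvenSet H F := by
  refine forall_congr' fun z => ?_
  rw [Finset.filter_congr fun e he => hle.isNonloopAt_congr (hF he)]

theorem forest_le {G H : Graph ℕ ℕ} (hle : G ≤ H) {F : Finset ℕ} (hF : (F : Set ℕ) ⊆ E(G)) :
    Forest G F ↔ Forest H F := by
  unfold Forest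
  constructor
  · rintro ⟨_, h2⟩
    refine ⟨hF.trans hle.edgeSet_mono, fun F' hF' hne => ?_⟩
    rw [← evenSet_le hle ((Finset.coe_subset.2 hF').trans hF)]
    exact h2 F' hF' hne
  · rintro ⟨_, h2⟩
    refine ⟨hF, fun F' hF' hne => ?_⟩
    rw [evenSet_le hle ((Finset.coe_subset.2 hF').trans hF)]
    exact h2 F' hF' hne

theorem isMinor_of_le {G H : Graph ℕ ℕ} (hle : G ≤ H) : cycleMatroid G ≤m cycleMatroid H := by
  have h1 : cycleMatroid G = (cycleMatroid H).delete (E(H) \ E(G)) := by
    refine Matroid.ext_indep ?_ fun I hI => ?_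
    · rw [Matroid.delete_ground, cycleMatroid_E, cycleMatroid_E]
      rw [Set.sdiff_sdiff_right_self]
      exact (Set.inter_eq_right.2 hle.edgeSet_mono).symm
    · rw [cycleMatroid_E] at hI
      rw [Matroid.delete_indep_iff, cycleMatroid_indep, cycleMatroid_indep]
      constructor
      · intro h
        refine ⟨fun F hF => (forest_le hle (hF.trans hI)).1 (h F hF), ?_⟩
        rw [Set.disjoint_left]
        intro a ha hb
        exact hb.2 (hI ha)
      · rintro ⟨h, _⟩ F hF
        exact (forest_le hle (hF.trans hI)).2 (h F hF)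
  rw [h1]
  have h2 := Matroid.contract_delete_isMinor (cycleMatroid H) ∅ (E(H) \ E(G))
  rwa [Matroid.contract_empty] at h2

/-- a circuit of the cycle matroid of `H` is an even set of `G`, if the matroids are equal -/
theorem evenSet_transfer {G H : Graph ℕ ℕ} (h : cycleMatroid G = cycleMatroid H) {F : Finset ℕ}
    (hF : (F : Set ℕ) ⊆ E(H)) (h1 : EvenSet H F) (hne : F.Nonempty)
    (h2 : ∀ a ∈ F, Forest H (F.erase a)) : EvenSet G F := by
  have h3 : ¬ Forest G F := by
    rw [forest_of_eq h]
    intro h4
    exact h4.2 F subset_rfl hne h1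
  unfold Forest at h3
  push Not at h3
  obtain ⟨F', hF', hne', he'⟩ := h3 ((edges_of_eq h) ▸ hF)
  by_cases h5 : F' = F
  · rwa [← h5]
  · exfalso
    obtain ⟨a, ha, ha'⟩ := Finset.exists_of_ssubset (hF'.ssubset_of_ne h5)
    have h6 := h2 a ha
    rw [← forest_of_eq h] at h6
    refine h6.2 F' ?_ hne' he'
    intro b hb
    rw [Finset.mem_erase]
    exact ⟨fun hab => ha' (hab ▸ hb), hF' hb⟩

end Pool.Agent.Q230.TGM
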