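import Pool.Agent.Q230.TGM.Defs

/-!
# Even sets of edges, minors
-/

set_option autoImplicit false

open Classical

namespace Pool.Agent.Q230.TGM

open Graph

/-- the functions `s`, `t` give the ends of the edges of `G` -/
def HasEnds (G : Graph ℕ ℕ) (s t : ℕ → ℕ) : Prop :=
  ∀ e x y, G.IsLink e x y ↔ e ∈ E(G) ∧ ((s e = x ∧ t e = y) ∨ (s e = y ∧ t e = x))

theorem exists_ends (G : Graph ℕ ℕ) : ∃ s t : ℕ → ℕ, HasEnds G s t := by
  have h : ∀ e, ∃ p : ℕ × ℕ, e ∈ E(G) → G.IsLink e p.1 p.2 := by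
    intro e
    by_cases he : e ∈ E(G)
    · obtain ⟨x, y, hxy⟩ := G.exists_isLink_of_mem_edgeSet he
      exact ⟨(x, y), fun _ => hxy⟩
    · exact ⟨(0, 0), fun h => absurd h he⟩
  choose p hp using h
  refine ⟨fun e => (p e).1, fun e => (p e).2, fun e x y => ?_⟩
  constructor
  · intro h
    refine ⟨h.edge_mem, ?_⟩
    rcases (hp e h.edge_mem).eq_and_eq_or_eq_and_eq h with ⟨h1, h2⟩ | ⟨h1, h2⟩
    · exact Or.inl ⟨h1, h2⟩
    · exact Or.inr ⟨h1, h2⟩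
  · rintro ⟨he, ⟨rfl, rfl⟩ | ⟨rfl, rfl⟩⟩
    · exact hp e he
    · exact (hp e he).symm

theorem HasEnds.nonloop {G : Graph ℕ ℕ} {s t : ℕ → ℕ} (h : HasEnds G s t) (e z : ℕ) :
    G.IsNonloopAt e z ↔ e ∈ E(G) ∧ s e ≠ t e ∧ (s e = z ∨ t e = z) := by
  unfold Graph.IsNonloopAt
  constructor
  · rintro ⟨y, hy, h1⟩
    rw [h] at h1
    obtain ⟨h1, ⟨rfl, rfl⟩ | ⟨rfl, rfl⟩⟩ := h1
    · exact ⟨h1, Ne.symm hy, Or.inl rfl⟩
    · exact ⟨h1, hy, Or.inr rfl⟩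
  · rintro ⟨h1, h2, rfl | rfl⟩
    · exact ⟨t e, h2.symm, (h e _ _).2 ⟨h1, Or.inl ⟨rfl, rfl⟩⟩⟩
    · exact ⟨s e, h2, (h e _ _).2 ⟨h1, Or.inr ⟨rfl, rfl⟩⟩⟩

/-- the formal sum of the ends of the edges in `F` modulo two -/
noncomputable def bd (s t : ℕ → ℕ) (F : Finset ℕ) : ℕ →₀ ZMod 2 :=
  ∑ e ∈ F, (Finsupp.single (s e) 1 + Finsupp.single (t e) 1)

theorem HasEnds.bd_apply {G : Graph ℕ ℕ} {s t : ℕ → ℕ} (h : HasEnds G s t) {F : Finset ℕ}
    (hF : (F : Set ℕ) ⊆ E(G)) (z : ℕ) :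
    bd s t F z = ((F.filter (fun e => G.IsNonloopAt e z)).card : ZMod 2) := by
  rw [bd, Finsupp.finset_sum_apply, ← Finset.sum_boole]
  refine Finset.sum_congr rfl fun e he => ?_
  rw [Finsupp.add_apply, Finsupp.single_apply, Finsupp.single_apply]
  have h1 : e ∈ E(G) := hF he
  by_cases h2 : s e = t e
  · have h5 : ¬ G.IsNonloopAt e z := by
      rw [h.nonloop]
      tauto
    simp only [h5, if_false, h2]
    split_ifs
    · decide
    · decide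
  · by_cases h3 : s e = z
    · have h5 : G.IsNonloopAt e z := (h.nonloop e z).2 ⟨h1, h2, Or.inl h3⟩
      have h4 : ¬ t e = z := fun h4 => h2 (h3.trans h4.symm)
      simp only [h5, h3, h4, if_true, if_false, add_zero]
    · by_cases h4 : t e = z
      · have h5 : G.IsNonloopAt e z := (h.nonloop e z).2 ⟨h1, h2, Or.inr h4⟩
        simp only [h5, h3, h4, if_true, if_false, zero_add]
      · have h5 : ¬ G.IsNonloopAt e z := by
          rw [h.nonloop]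
          tauto
        simp only [h5, h3, h4, if_false, add_zero]

theorem HasEnds.even_iff {G : Graph ℕ ℕ} {s t : ℕ → ℕ} (h : HasEnds G s t) {F : Finset ℕ}
    (hF : (F : Set ℕ) ⊆ E(G)) : EvenSet G F ↔ bd s t F = 0 := by
  constructor
  · intro h1
    ext z
    rw [h.bd_apply hF, Finsupp.coe_zero, Pi.zero_apply]
    exact (ZMod.natCast_eq_zero_iff_even).2 (h1 z)
  · intro h1 z
    have := h.bd_apply hF z
    rw [h1, Finsupp.coe_zero, Pi.zero_apply] at this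
    exact (ZMod.natCast_eq_zero_iff_even).1 this.symm

theorem HasEnds.map {G : Graph ℕ ℕ} {s t : ℕ → ℕ} (h : HasEnds G s t) (φ : ℕ → ℕ) :
    HasEnds (G.map φ) (fun e => φ (s e)) (fun e => φ (t e)) := by
  intro e x y
  rw [Graph.map_isLink]
  constructor
  · rintro ⟨u, v, h1, rfl, rfl⟩
    rw [h] at h1
    obtain ⟨h1, ⟨rfl, rfl⟩ | ⟨rfl, rfl⟩⟩ := h1
    · exact ⟨h1, Or.inl ⟨rfl, rfl⟩⟩
    · exact ⟨h1, Or.inr ⟨rfl, rfl⟩⟩
  · rintro ⟨h1, ⟨rfl, rfl⟩ | ⟨rfl, rfl⟩⟩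
    · exact ⟨s e, t e, (h _ _ _).2 ⟨h1, Or.inl ⟨rfl, rfl⟩⟩, rfl, rfl⟩
    · exact ⟨t e, s e, (h _ _ _).2 ⟨h1, Or.inr ⟨rfl, rfl⟩⟩, rfl, rfl⟩

theorem even_map {G : Graph ℕ ℕ} {F : Finset ℕ} (hF : (F : Set ℕ) ⊆ E(G)) (h : EvenSet G F)
    (φ : ℕ → ℕ) : EvenSet (G.map φ) F := by
  obtain ⟨s, t, hst⟩ := exists_ends G
  rw [(hst.map φ).even_iff hF]
  rw [hst.even_iff hF] at h
  have h1 := congrArg (Finsupp.mapDomain φ) h
  rw [bd, Finsupp.mapDomain_finsetSum, Finsupp.mapDomain_zero] at h1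
  rw [bd, ← h1]
  refine Finset.sum_congr rfl fun e _ => ?_
  rw [Finsupp.mapDomain_add, Finsupp.mapDomain_single, Finsupp.mapDomain_single]

/-- in an even set each nonloop has a neighbour at each of its ends -/
theorem exists_other {G : Graph ℕ ℕ} {F : Finset ℕ} (h : EvenSet G F) {e z : ℕ} (he : e ∈ F)
    (hz : G.IsNonloopAt e z) : ∃ e' ∈ F, e' ≠ e ∧ G.IsNonloopAt e' z := by
  have h1 : e ∈ F.filter (fun e => G.IsNonloopAt e z) := Finset.mem_filter.2 ⟨he, hz⟩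
  have h2 : 1 < (F.filter (fun e => G.IsNonloopAt e z)).card := by
    have h3 := h z
    have h4 : 0 < (F.filter (fun e => G.IsNonloopAt e z)).card := Finset.card_pos.2 ⟨e, h1⟩
    obtain ⟨k, hk⟩ := h3
    omega
  obtain ⟨e', h5, h6⟩ := Finset.exists_mem_ne h2 e
  rw [Finset.mem_filter] at h5
  exact ⟨e', h5.1, h6, h5.2⟩

theorem even_single {G : Graph ℕ ℕ} {e u : ℕ} (h : G.IsLink e u u) : EvenSet G {e} := by
  intro z
  rw [Finset.filter_singleton, if_neg]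
  · exact ⟨0, rfl⟩
  · rintro ⟨y, hy, h1⟩
    rcases h.eq_and_eq_or_eq_and_eq h1 with ⟨h2, h3⟩ | ⟨h2, h3⟩
    · exact hy (h3.symm.trans h2)
    · exact hy (h2.symm.trans h3)

theorem two_eq (a : ZMod 2) : a + a = 0 := by
  revert a
  decide

theorem fs_two (f : ℕ →₀ ZMod 2) : f + f = 0 := by
  ext z
  rw [Finsupp.add_apply]
  exact two_eq _

/-- ends of an edge and the formal sum -/
theorem HasEnds.single_eq {G : Graph ℕ ℕ} {s t : ℕ → ℕ} (h : HasEnds G s t) {e u v : ℕ}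
    (he : G.IsLink e u v) : (Finsupp.single (s e) 1 + Finsupp.single (t e) 1 : ℕ →₀ ZMod 2) =
      Finsupp.single u 1 + Finsupp.single v 1 := by
  rw [h] at he
  obtain ⟨_, ⟨rfl, rfl⟩ | ⟨rfl, rfl⟩⟩ := he
  · rfl
  · rw [add_comm]

theorem even_pair {G : Graph ℕ ℕ} {e e' u v : ℕ} (hne : e ≠ e') (h : G.IsLink e u v)
    (h' : G.IsLink e' u v) : EvenSet G {e, e'} := by
  obtain ⟨s, t, hst⟩ := exists_ends G
  rw [hst.even_iff (by
    intro a ha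
    simp only [Finset.coe_insert, Finset.coe_singleton, Set.mem_insert_iff,
      Set.mem_singleton_iff] at ha
    rcases ha with rfl | rfl
    · exact h.edge_mem
    · exact h'.edge_mem)]
  rw [bd, Finset.sum_pair hne, hst.single_eq h, hst.single_eq h', fs_two]

theorem even_triple {G : Graph ℕ ℕ} {e e' e'' u v w : ℕ} (h1 : e ≠ e') (h2 : e ≠ e'')
    (h3 : e' ≠ e'') (h : G.IsLink e u v) (h' : G.IsLink e' u w) (h'' : G.IsLink e'' v w) :
    EvenSet G {e, e', e''} := by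
  obtain ⟨s, t, hst⟩ := exists_ends G
  rw [hst.even_iff (by
    intro a ha
    simp only [Finset.coe_insert, Finset.coe_singleton, Set.mem_insert_iff,
      Set.mem_singleton_iff] at ha
    rcases ha with rfl | rfl | rfl
    · exact h.edge_mem
    · exact h'.edge_mem
    · exact h''.edge_mem)]
  rw [bd, Finset.sum_insert (by simp [h1, h2]), Finset.sum_pair h3, hst.single_eq h,
    hst.single_eq h', hst.single_eq h'']
  rw [show (Finsupp.single u 1 + Finsupp.single v 1 + ((Finsupp.single u 1 + Finsupp.single w 1) +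
    (Finsupp.single v 1 + Finsupp.single w 1)) : ℕ →₀ ZMod 2) =
    (Finsupp.single u 1 + Finsupp.single u 1) + ((Finsupp.single v 1 + Finsupp.single v 1) +
    (Finsupp.single w 1 + Finsupp.single w 1)) by abel, fs_two, fs_two, fs_two]
  rfl

/-! ### Minors -/

theorem isLink_of_minor {G H : Graph ℕ ℕ} {φ : ℕ → ℕ} (h : G ≤ H.map φ) {e : ℕ}
    (he : e ∈ E(G)) {u v : ℕ} (hl : H.IsLink e u v) : G.IsLink e (φ u) (φ v) := by
  rw [h.isLink_iff he]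
  exact hl.map φ

theorem exists_of_minor {G H : Graph ℕ ℕ} {φ : ℕ → ℕ} (h : G ≤ H.map φ) {e u v : ℕ}
    (hl : G.IsLink e u v) : ∃ u' v', H.IsLink e u' v' ∧ φ u' = u ∧ φ v' = v := by
  have h1 := hl.mono h
  rw [Graph.map_isLink] at h1
  obtain ⟨x, y, h2, h3, h4⟩ := h1
  exact ⟨x, y, h2, h3, h4⟩

theorem joined_mem {H : Graph ℕ ℕ} {C : Set ℕ} {u v : ℕ} (h : Joined H C u v) (hne : u ≠ v) :
    ∃ e ∈ C, e ∈ E(H) := by
  induction h with
  | refl => exact absurd rfl hne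
  | tail _ h2 _ =>
    obtain ⟨e, he, h3⟩ := h2
    exact ⟨e, he, h3.edge_mem⟩

/-- nothing is contracted -/
def Inj (H : Graph ℕ ℕ) (φ : ℕ → ℕ) : Prop := ∀ u ∈ V(H), ∀ v ∈ V(H), φ u = φ v → u = v

theorem inj_of {H : Graph ℕ ℕ} {C : Set ℕ} {φ : ℕ → ℕ}
    (hC : ∀ u ∈ V(H), ∀ v ∈ V(H), φ u = φ v ↔ Joined H C u v) (h : ∀ e ∈ C, e ∉ E(H)) :
    Inj H φ := by
  intro u hu v hv huv
  by_contra hne
  obtain ⟨e, h1, h2⟩ := joined_mem ((hC u hu v hv).1 huv) hne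
  exact h e h1 h2

/-- the edges `e` and `e'` have a common end -/
def Meet (G : Graph ℕ ℕ) (e e' : ℕ) : Prop := ∃ z, G.Inc e z ∧ G.Inc e' z

theorem meet_iff {G H : Graph ℕ ℕ} {φ : ℕ → ℕ} (h : G ≤ H.map φ) (hi : Inj H φ) {e e' : ℕ}
    (he : e ∈ E(G)) (he' : e' ∈ E(G)) : Meet G e e' ↔ Meet H e e' := by
  constructor
  · rintro ⟨z, ⟨y, hy⟩, ⟨y', hy'⟩⟩
    obtain ⟨a, b, h1, h2, _⟩ := exists_of_minor h hy
    obtain ⟨a', b', h1', h2', _⟩ := exists_of_minor h hy'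
    have h3 := hi a h1.left_mem a' h1'.left_mem (h2.trans h2'.symm)
    subst h3
    exact ⟨a, ⟨b, h1⟩, ⟨b', h1'⟩⟩
  · rintro ⟨z, ⟨y, hy⟩, ⟨y', hy'⟩⟩
    exact ⟨φ z, ⟨_, isLink_of_minor h he hy⟩, ⟨_, isLink_of_minor h he' hy'⟩⟩

end Pool.Agent.Q230.TGM
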