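import Pool.Agent.Q230.TGM.Inst

/-!
# The graph of a clause
-/

set_option autoImplicit false

open Classical

namespace Pool.Agent.Q230.TGM

open Graph

/-- the circuit of the gadget of a clause -/
def circ (i j k : ℕ) : Finset ℕ := {3 * i + 1, 3 * j + 1, 3 * k + 1, 3, 6}

theorem mem_circ {i j k e : ℕ} : e ∈ circ i j k ↔ e = 3 * i + 1 ∨ e = 3 * j + 1 ∨ e = 3 * k + 1 ∨
    e = 3 ∨ e = 6 := by
  simp [circ]

theorem sB3 (τ : ℕ → Bool) (p q : ℕ) : sB τ p q 3 = p + 2 := rfl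

theorem sB6 (τ : ℕ → Bool) (p q : ℕ) : sB τ p q 6 = q + 2 := rfl

theorem tB3 (τ : ℕ → Bool) (r : ℕ) : tB τ r 3 = bn (τ r) := rfl

theorem tB6 (τ : ℕ → Bool) (r : ℕ) : tB τ r 6 = r + 2 := rfl

section

variable {X : Set ℕ} {τ : ℕ → Bool} {p q r : ℕ}

theorem nl3 {z : ℕ} : (GB X τ p q r).IsNonloopAt 3 z ↔ z = p + 2 ∨ z = bn (τ r) := by
  rw [GB, mkG_nonloop, sB3, tB3]
  have := bn_le (τ r)
  constructor
  · rintro ⟨_, _, h | h⟩
    · exact Or.inl h.symm
    · exact Or.inr h.symm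
  · intro h
    exact ⟨Or.inl rfl, by omega, h.imp Eq.symm Eq.symm⟩

theorem nl6 (hqr : q ≠ r) {z : ℕ} :
    (GB X τ p q r).IsNonloopAt 6 z ↔ z = q + 2 ∨ z = r + 2 := by
  rw [GB, mkG_nonloop, sB6, tB6]
  constructor
  · rintro ⟨_, _, h | h⟩
    · exact Or.inl h.symm
    · exact Or.inr h.symm
  · intro h
    exact ⟨Or.inr (Or.inl rfl), by omega, h.imp Eq.symm Eq.symm⟩

theorem nlx {v z : ℕ} (hv : v ∈ X) :
    (GB X τ p q r).IsNonloopAt (3 * v + 1) z ↔ z = v + 2 ∨ z = bn (τ v) := by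
  rw [GB, mkG_nonloop, sB_x, tB_x]
  have := bn_le (τ v)
  constructor
  · rintro ⟨_, _, h | h⟩
    · exact Or.inr h.symm
    · exact Or.inl h.symm
  · intro h
    exact ⟨Or.inr (Or.inr ⟨v, hv, rfl⟩), by omega, h.symm.imp Eq.symm Eq.symm⟩

theorem memX {F : Finset ℕ} (hF : (F : Set ℕ) ⊆ EB X) {v : ℕ} (hv : 3 * v + 1 ∈ F) : v ∈ X := by
  rcases hF hv with h | h | ⟨u, hu, h⟩
  · omega
  · omega
  · rwa [show v = u by omega]

/-- the only nonempty even set is the circuit -/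
theorem even_GB (hpq : p ≠ q) (hpr : p ≠ r) (hqr : q ≠ r) (h1 : τ p = τ q) (h2 : τ p ≠ τ r)
    {F : Finset ℕ} (hF : (F : Set ℕ) ⊆ EB X) (hne : F.Nonempty) (hev : EvenSet (GB X τ p q r) F) :
    F = circ p q r := by
  have bq := bn_le (τ q)
  -- an edge `3 v + 1` of `F`
  have X1 : ∀ v, 3 * v + 1 ∈ F → (v = p ∧ 3 ∈ F) ∨ (v = q ∧ 6 ∈ F) ∨ (v = r ∧ 6 ∈ F) := by
    intro v hv
    obtain ⟨e, m1, m2, m3⟩ := exists_other hev hv ((nlx (memX hF hv)).2 (Or.inl rfl))
    rcases hF m1 with rfl | rfl | ⟨u, hu, rfl⟩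
    · rw [nl3] at m3
      have := bn_le (τ r)
      exact Or.inl ⟨by omega, m1⟩
    · rw [nl6 hqr] at m3
      rcases m3 with m3 | m3
      · exact Or.inr (Or.inl ⟨by omega, m1⟩)
      · exact Or.inr (Or.inr ⟨by omega, m1⟩)
    · rw [nlx hu] at m3
      have := bn_le (τ u)
      exfalso
      apply m2
      omega
  have T : ∀ v, 3 * v + 1 ∈ F → bn (τ r) = bn (τ v) → v = r := by
    intro v hv hb
    rcases X1 v hv with ⟨h, _⟩ | ⟨h, _⟩ | ⟨h, _⟩
    · rw [h] at hb
      exact absurd (bn_inj hb).symm h2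
    · rw [h] at hb
      exact absurd (h1.trans (bn_inj hb).symm) h2
    · exact h
  have X3 : 3 ∈ F → 3 * p + 1 ∈ F ∧ 3 * r + 1 ∈ F := by
    intro h3
    constructor
    · obtain ⟨e, m1, m2, m3⟩ := exists_other hev h3 (nl3.2 (Or.inl rfl))
      rcases hF m1 with rfl | rfl | ⟨u, hu, rfl⟩
      · exact absurd rfl m2
      · rw [nl6 hqr] at m3
        omega
      · rw [nlx hu] at m3
        have := bn_le (τ u)
        rwa [show p = u by omega]
    · obtain ⟨e, m1, m2, m3⟩ := exists_other hev h3 (nl3.2 (Or.inr rfl))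
      rcases hF m1 with rfl | rfl | ⟨u, hu, rfl⟩
      · exact absurd rfl m2
      · rw [nl6 hqr] at m3
        have := bn_le (τ r)
        omega
      · rw [nlx hu] at m3
        have := bn_le (τ r)
        rcases m3 with m3 | m3
        · omega
        · rwa [← T u m1 m3]
  have X6 : 6 ∈ F → 3 * q + 1 ∈ F ∧ 3 * r + 1 ∈ F := by
    intro h6
    constructor
    · obtain ⟨e, m1, m2, m3⟩ := exists_other hev h6 ((nl6 hqr).2 (Or.inl rfl))
      rcases hF m1 with rfl | rfl | ⟨u, hu, rfl⟩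
      · rw [nl3] at m3
        have := bn_le (τ r)
        omega
      · exact absurd rfl m2
      · rw [nlx hu] at m3
        have := bn_le (τ u)
        rwa [show q = u by omega]
    · obtain ⟨e, m1, m2, m3⟩ := exists_other hev h6 ((nl6 hqr).2 (Or.inr rfl))
      rcases hF m1 with rfl | rfl | ⟨u, hu, rfl⟩
      · rw [nl3] at m3
        have := bn_le (τ r)
        omega
      · exact absurd rfl m2
      · rw [nlx hu] at m3
        have := bn_le (τ u)
        rwa [show r = u by omega]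
  -- the edge at `r`
  have R : 3 * r + 1 ∈ F → 3 ∈ F := by
    intro hr
    obtain ⟨e, m1, m2, m3⟩ := exists_other hev hr ((nlx (memX hF hr)).2 (Or.inr rfl))
    rcases hF m1 with rfl | rfl | ⟨u, hu, rfl⟩
    · exact m1
    · rw [nl6 hqr] at m3
      have := bn_le (τ r)
      omega
    · rw [nlx hu] at m3
      have := bn_le (τ r)
      rcases m3 with m3 | m3
      · omega
      · exact absurd (by rw [T u m1 m3]) m2
  have R6 : 3 * r + 1 ∈ F → 6 ∈ F := by
    intro hr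
    rcases X1 r hr with ⟨h, _⟩ | ⟨_, h⟩ | ⟨_, h⟩
    · exact absurd h.symm hpr
    · exact h
    · exact h
  have hr : 3 * r + 1 ∈ F := by
    obtain ⟨e, he⟩ := hne
    rcases hF he with rfl | rfl | ⟨v, hv, rfl⟩
    · exact (X3 he).2
    · exact (X6 he).2
    · rcases X1 v he with ⟨_, h⟩ | ⟨_, h⟩ | ⟨_, h⟩
      · exact (X3 h).2
      · exact (X6 h).2
      · exact (X6 h).2
  have h3 := R hr
  have h6 := R6 hr
  ext e
  rw [mem_circ]
  constructor
  · intro he
    rcases hF he with rfl | rfl | ⟨v, hv, rfl⟩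
    · simp
    · simp
    · rcases X1 v he with ⟨rfl, _⟩ | ⟨rfl, _⟩ | ⟨rfl, _⟩ <;> simp
  · rintro (rfl | rfl | rfl | rfl | rfl)
    · exact (X3 h3).1
    · exact (X6 h6).1
    · exact hr
    · exact h3
    · exact h6

/-- the circuit is an even set -/
theorem even_circ (hp : p ∈ X) (hq : q ∈ X) (hr : r ∈ X) (hpq : p ≠ q) (hpr : p ≠ r) (hqr : q ≠ r)
    (h1 : τ p = τ q) : EvenSet (GB X τ p q r) (circ p q r) := by
  have hF : ((circ p q r : Finset ℕ) : Set ℕ) ⊆ EB X := by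
    intro e he
    rw [Finset.mem_coe, mem_circ] at he
    rcases he with rfl | rfl | rfl | rfl | rfl
    · exact Or.inr (Or.inr ⟨p, hp, rfl⟩)
    · exact Or.inr (Or.inr ⟨q, hq, rfl⟩)
    · exact Or.inr (Or.inr ⟨r, hr, rfl⟩)
    · exact Or.inl rfl
    · exact Or.inr (Or.inl rfl)
  refine ((mkG_ends (EB X) (sB τ p q) (tB τ r)).even_iff hF).2 ?_
  rw [bd, circ, Finset.sum_insert (by
    simp only [Finset.mem_insert, Finset.mem_singleton]; omega), Finset.sum_insert (by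
    simp only [Finset.mem_insert, Finset.mem_singleton]; omega), Finset.sum_insert (by
    simp only [Finset.mem_insert, Finset.mem_singleton]; omega), Finset.sum_pair (by omega),
    sB_x, sB_x, sB_x, tB_x, tB_x, tB_x, sB3, sB6, tB3, tB6, h1]
  set a : ℕ →₀ ZMod 2 := Finsupp.single (bn (τ q)) 1
  set b : ℕ →₀ ZMod 2 := Finsupp.single (bn (τ r)) 1
  set c : ℕ →₀ ZMod 2 := Finsupp.single (p + 2) 1
  set d : ℕ →₀ ZMod 2 := Finsupp.single (q + 2) 1
  set e : ℕ →₀ ZMod 2 := Finsupp.single (r + 2) 1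
  rw [show a + c + (a + d + (b + e + (c + b + (d + e)))) =
    (a + a) + ((b + b) + ((c + c) + ((d + d) + (e + e)))) by abel, fs_two, fs_two, fs_two, fs_two,
    fs_two]
  simp

end

theorem circ_eq {i j k p q r : ℕ} (h : ({p, q, r} : Set ℕ) = {i, j, k}) :
    circ p q r = circ i j k := by
  have h1 : ∀ v, (v = p ∨ v = q ∨ v = r) ↔ (v = i ∨ v = j ∨ v = k) := by
    intro v
    have := Set.ext_iff.1 h v
    simpa using this
  ext e
  rw [mem_circ, mem_circ]
  constructor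
  · rintro (h2 | h2 | h2 | h2 | h2)
    · rcases (h1 p).1 (by simp) with h3 | h3 | h3 <;> simp [h2, h3]
    · rcases (h1 q).1 (by simp) with h3 | h3 | h3 <;> simp [h2, h3]
    · rcases (h1 r).1 (by simp) with h3 | h3 | h3 <;> simp [h2, h3]
    · simp [h2]
    · simp [h2]
  · rintro (h2 | h2 | h2 | h2 | h2)
    · rcases (h1 i).2 (by simp) with h3 | h3 | h3 <;> simp [h2, h3]
    · rcases (h1 j).2 (by simp) with h3 | h3 | h3 <;> simp [h2, h3]
    · rcases (h1 k).2 (by simp) with h3 | h3 | h3 <;> simp [h2, h3]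
    · simp [h2]
    · simp [h2]

theorem matB {X : Set ℕ} {τ τ' : ℕ → Bool} {i j k p q r : ℕ}
    (hp : p ∈ X) (hq : q ∈ X) (hr : r ∈ X) (hi : i ∈ X) (hj : j ∈ X) (hk : k ∈ X)
    (hpq : p ≠ q) (hpr : p ≠ r) (hqr : q ≠ r) (hij : i ≠ j) (hik : i ≠ k) (hjk : j ≠ k)
    (h1 : τ p = τ q) (h2 : τ p ≠ τ r) (h1' : τ' i = τ' j) (h2' : τ' i ≠ τ' k)
    (h : ({p, q, r} : Set ℕ) = {i, j, k}) :
    cycleMatroid (GB X τ p q r) = cycleMatroid (GB X τ' i j k) := by
  have hc := circ_eq h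
  refine cycleMatroid_congr rfl fun F hF => ?_
  by_cases hne : F.Nonempty
  · constructor
    · intro h3
      rw [even_GB hpq hpr hqr h1 h2 hF hne h3, hc]
      exact even_circ hi hj hk hij hik hjk h1'
    · intro h3
      rw [even_GB hij hik hjk h1' h2' hF hne h3, ← hc]
      exact even_circ hp hq hr hpq hpr hqr h1
  · rw [Finset.not_nonempty_iff_eq_empty] at hne
    subst hne
    constructor <;> intro _ z <;> simp

end Pool.Agent.Q230.TGM
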