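import Pool.Agent.Q230.TGM.Gad

/-!
# One half of the part of the sequence for a clause
-/

set_option autoImplicit false

open Classical

namespace Pool.Agent.Q230.TGM

open Graph

theorem sub_EA {X : Set ℕ} {F : Finset ℕ} (h : ∀ e ∈ F, e = 0 ∨ ∃ v ∈ X, e = 3 * v + 1 ∨
    e = 3 * v + 2) : (F : Set ℕ) ⊆ EA X := fun e he => h e he

theorem forest_pair {X : Set ℕ} (τ : ℕ → Bool) {v : ℕ} (hv : v ∈ X) {e : ℕ}
    (he : e = 3 * v + 1 ∨ e = 3 * v + 2) : Forest (GA X τ) {0, e} := by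
  refine forest_GA τ (sub_EA ?_) ?_
  · intro a ha
    simp only [Finset.mem_insert, Finset.mem_singleton] at ha
    rcases ha with rfl | rfl
    · exact Or.inl rfl
    · exact Or.inr ⟨v, hv, he⟩
  · intro u h1 h2
    simp only [Finset.mem_insert, Finset.mem_singleton] at h1 h2
    omega

theorem forest_pair' {X : Set ℕ} (τ : ℕ → Bool) {v : ℕ} (hv : v ∈ X) :
    Forest (GA X τ) {3 * v + 1, 3 * v + 2} := by
  refine forest_GA τ (sub_EA ?_) ?_
  · intro a ha
    simp only [Finset.mem_insert, Finset.mem_singleton] at ha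
    exact Or.inr ⟨v, hv, ha⟩
  · intro u h1 _
    simp only [Finset.mem_insert, Finset.mem_singleton] at h1
    rw [show u = v by omega]

theorem forest_three {X : Set ℕ} (τ : ℕ → Bool) {u v : ℕ} (hu : u ∈ X) (hv : v ∈ X) :
    Forest (GA X τ) {0, 3 * u + 1, 3 * v + 1} := by
  refine forest_GA τ (sub_EA ?_) ?_
  · intro a ha
    simp only [Finset.mem_insert, Finset.mem_singleton] at ha
    rcases ha with rfl | rfl | rfl
    · exact Or.inl rfl
    · exact Or.inr ⟨u, hu, Or.inl rfl⟩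
    · exact Or.inr ⟨v, hv, Or.inl rfl⟩
  · intro w _ h2
    simp only [Finset.mem_insert, Finset.mem_singleton] at h2
    omega

theorem even_g {X : Set ℕ} {τ : ℕ → Bool} {g : Graph ℕ ℕ}
    (hA : cycleMatroid g = cycleMatroid (GA X τ)) {v : ℕ} (hv : v ∈ X) :
    EvenSet g {0, 3 * v + 1, 3 * v + 2} := by
  refine evenSet_transfer hA (sub_EA ?_) (even_GA_triple τ hv) ⟨0, by simp⟩ ?_
  · intro a ha
    simp only [Finset.mem_insert, Finset.mem_singleton] at ha
    rcases ha with rfl | h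
    · exact Or.inl rfl
    · exact Or.inr ⟨v, hv, h⟩
  · intro a ha
    refine forest_GA τ (sub_EA ?_) ?_
    · intro b hb
      have hb := Finset.mem_of_mem_erase hb
      simp only [Finset.mem_insert, Finset.mem_singleton] at hb
      rcases hb with rfl | h
      · exact Or.inl rfl
      · exact Or.inr ⟨v, hv, h⟩
    · intro u h1 h2
      rw [Finset.mem_erase] at h1 h2
      simp only [Finset.mem_insert, Finset.mem_singleton] at h1 h2 ha
      have hu : u = v := by omega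
      subst hu
      have ha0 : a = 0 := by omega
      subst ha0
      ext e
      simp only [Finset.mem_erase, Finset.mem_insert, Finset.mem_singleton]
      omega

theorem starA' {X : Set ℕ} {τ : ℕ → Bool} {g : Graph ℕ ℕ}
    (hA : cycleMatroid g = cycleMatroid (GA X τ)) {v₀ : ℕ} (hv₀ : v₀ ∈ X) :
    ∃ (a b : ℕ) (σ ρ w : ℕ → ℕ), a ≠ b ∧ g.IsLink 0 a b ∧ Star1 g X a b σ w ∧
      ∀ v ∈ X, g.IsLink (3 * v + 2) (ρ v) (w v) ∧
        ((σ v = a ∧ ρ v = b) ∨ (σ v = b ∧ ρ v = a)) :=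
  starA hv₀ (fun _ hv => even_g hA hv)
    (fun _ hv => (forest_of_eq hA _).2 (forest_pair τ hv (Or.inl rfl)))
    (fun _ hv => (forest_of_eq hA _).2 (forest_pair τ hv (Or.inr rfl)))
    (fun _ hv => (forest_of_eq hA _).2 (forest_pair' τ hv))
    (fun _ hu _ hv _ => (forest_of_eq hA _).2 (forest_three τ hu hv))

theorem meet_star {G : Graph ℕ ℕ} {X : Set ℕ} {a b : ℕ} {σ w : ℕ → ℕ} (hs : Star1 G X a b σ w)
    {u v : ℕ} (hu : u ∈ X) (hv : v ∈ X) (hne : u ≠ v) (h : Meet G (3 * u + 1) (3 * v + 1)) :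
    σ u = σ v := by
  obtain ⟨z, ⟨y, h1⟩, ⟨y', h2⟩⟩ := h
  obtain ⟨u1, u2, u3, u4, u5⟩ := hs u hu
  obtain ⟨v1, v2, v3, v4, v5⟩ := hs v hv
  have e1 := h1.left_eq_or_eq u1
  have e2 := h2.left_eq_or_eq v1
  have n1 : w u ≠ w v := fun h => hne (v5 u hu h)
  rcases e1 with e1 | e1 <;> rcases e2 with e2 | e2
  · exact e1.symm.trans e2
  · exfalso
    have : σ u = w v := e1.symm.trans e2
    rcases u2 with h' | h'
    · exact v3 (this.symm.trans h')
    · exact v4 (this.symm.trans h')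
  · exfalso
    have : σ v = w u := e2.symm.trans e1
    rcases v2 with h' | h'
    · exact u3 (this.symm.trans h')
    · exact u4 (this.symm.trans h')
  · exact absurd (e1.symm.trans e2) n1

/-- **One half of the part of the sequence for a clause.** -/
theorem half {X : Set ℕ} {g g0 g1 gb : Graph ℕ ℕ} {τ₀ τ₁ : ℕ → Bool} {i j k : ℕ} (hi : i ∈ X)
    (hj : j ∈ X) (hk : k ∈ X) (hij : i ≠ j) (hjk : j ≠ k) (hik : i ≠ k) (hc1 : τ₁ i = τ₁ j)
    (hc2 : τ₁ i ≠ τ₁ k) (hA : cycleMatroid g = cycleMatroid (GA X τ₀))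
    (h0 : cycleMatroid g0 = cycleMatroid (G0 X τ₀)) (h1 : cycleMatroid g1 = cycleMatroid (G1 X τ₀))
    (hB : cycleMatroid gb = cycleMatroid (GB X τ₁ i j k)) (m0 : GMinor g0 g) (m1 : GMinor g1 g0)
    (mB : GMinor g1 gb) :
    (∀ u ∈ X, ∀ v ∈ X, Meet g (3 * u + 1) (3 * v + 1) ↔ Meet gb (3 * u + 1) (3 * v + 1)) ∧
      ¬ (Meet g (3 * i + 1) (3 * j + 1) ∧ Meet g (3 * j + 1) (3 * k + 1)) := by
  obtain ⟨a, b, σ, ρ, w, hab, l0, hs, hρ⟩ := starA' hA hi
  have eA : E(g) = EA X := edges_of_eq hA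
  have e0 : E(g0) = E0 X := edges_of_eq h0
  have e1 : E(g1) = E1 X := edges_of_eq h1
  have eB : E(gb) = EB X := edges_of_eq hB
  obtain ⟨C, φ, hC1, hC2, hle⟩ := m0
  have x0 : ∀ v ∈ X, 3 * v + 1 ∈ E(g0) := fun v hv => by
    rw [e0]
    exact Or.inr ⟨v, hv, rfl⟩
  have x1 : ∀ v ∈ X, 3 * v + 1 ∈ E(g1) := fun v hv => by
    rw [e1]
    exact ⟨v, hv, rfl⟩
  have z0 : 0 ∈ E(g0) := by
    rw [e0]
    exact Or.inl rfl
  have F0 : ∀ v ∈ X, Forest g0 {0, 3 * v + 1} := by
    intro v hv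
    rw [forest_of_eq h0]
    refine forest_G0 τ₀ fun e he => ?_
    simp only [Finset.coe_insert, Finset.coe_singleton, Set.mem_insert_iff,
      Set.mem_singleton_iff] at he
    exact he.imp id fun h => ⟨v, hv, h⟩
  -- nothing is contracted in the first step
  have hinj : Inj g φ := by
    refine inj_of hC2 fun e he heg => ?_
    have hn : e ∉ E(g0) := fun h => Set.disjoint_left.1 hC1 he h
    rw [eA] at heg
    rw [e0] at hn
    obtain ⟨v, hv, rfl⟩ : ∃ v ∈ X, e = 3 * v + 2 := by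
      rcases heg with h | ⟨v, hv, h | h⟩
      · exact absurd (Or.inl h) hn
      · exact absurd (Or.inr ⟨v, hv, h⟩) hn
      · exact ⟨v, hv, h⟩
    obtain ⟨lρ, hσ⟩ := hρ v hv
    have hφ : φ (ρ v) = φ (w v) := (hC2 _ lρ.left_mem _ lρ.right_mem).2
      (Relation.ReflTransGen.single ⟨_, he, lρ⟩)
    have k0 := isLink_of_minor hle z0 l0
    have kx := isLink_of_minor hle (x0 v hv) (hs v hv).1
    have np := not_parallel (F0 v hv) (by simp) (by simp) (by omega) k0 kx
    rcases hσ with ⟨h2, h3⟩ | ⟨h2, h3⟩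
    · exact np.1 ⟨by rw [h2], by rw [← hφ, h3]⟩
    · exact np.2 ⟨by rw [← hφ, h3], by rw [h2]⟩
  have hs0 := hs.map l0.left_mem l0.right_mem hle hinj x0
  have k0 := isLink_of_minor hle z0 l0
  have hab0 : φ a ≠ φ b := fun h => hab (hinj a l0.left_mem b l0.right_mem h)
  -- the second step
  obtain ⟨D, ψ, hD1, hD2, hle1⟩ := m1
  have hDl : ∀ e ∈ D, ∀ x y, g0.IsLink e x y → (x = φ a ∧ y = φ b) ∨ (x = φ b ∧ y = φ a) := by
    intro e he x y hl
    have hn : e ∉ E(g1) := fun h => Set.disjoint_left.1 hD1 he h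
    have hm := hl.edge_mem
    rw [e0] at hm
    rw [e1] at hn
    rcases hm with rfl | hm
    · exact hl.eq_and_eq_or_eq_and_eq k0
    · exact absurd hm hn
  have hs1 : Star1 g1 X (ψ (φ a)) (ψ (φ b)) (fun v => ψ (φ (σ v))) (fun v => ψ (φ (w v))) := by
    intro v hv
    obtain ⟨q1, q2, q3, q4, q5⟩ := hs0 v hv
    have hw := q1.right_mem
    have hno : ∀ x, (x = φ a ∨ x = φ b) → ψ (φ (w v)) ≠ ψ x := by
      intro x hx h
      have hxV : x ∈ V(g0) := by
        rcases hx with rfl | rfl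
        · exact k0.left_mem
        · exact k0.right_mem
      rcases joined_ab hDl ((hD2 _ hw _ hxV).1 h) with h' | ⟨h', _⟩
      · rcases hx with hx | hx
        · exact q3 (h'.trans hx)
        · exact q4 (h'.trans hx)
      · rcases h' with h' | h'
        · exact q3 h'
        · exact q4 h'
    refine ⟨isLink_of_minor hle1 (x1 v hv) q1, ?_, hno _ (Or.inl rfl), hno _ (Or.inr rfl), ?_⟩
    · rcases q2 with q2 | q2
      · exact Or.inl (congrArg ψ q2)
      · exact Or.inr (congrArg ψ q2)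
    · intro u hu h
      have hu' := (hs0 u hu).1.right_mem
      rcases joined_ab hDl ((hD2 _ hu' _ hw).1 h) with h' | ⟨h', _⟩
      · exact q5 u hu h'
      · exfalso
        rcases h' with h' | h'
        · exact (hs0 u hu).2.2.1 h'
        · exact (hs0 u hu).2.2.2.1 h'
  -- the gadget
  have bE : ∀ e, e ∈ E(gb) → e ∉ E(g1) → e = 3 ∨ e = 6 := by
    intro e he hn
    rw [eB] at he
    rw [e1] at hn
    rcases he with h | h | h
    · exact Or.inl h
    · exact Or.inr h
    · exact absurd h hn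
  have nB : ∀ F : Finset ℕ, (F : Set ℕ) ⊆ EB X → F.Nonempty → F.card ≤ 4 →
      ¬ EvenSet (GB X τ₁ i j k) F := by
    intro F hF hne hcard hev
    have := even_GB hij hik hjk hc1 hc2 hF hne hev
    rw [this, circ, Finset.card_insert_of_notMem (by
      simp only [Finset.mem_insert, Finset.mem_singleton]; omega), Finset.card_insert_of_notMem (by
      simp only [Finset.mem_insert, Finset.mem_singleton]; omega), Finset.card_insert_of_notMem (by
      simp only [Finset.mem_insert, Finset.mem_singleton]; omega), Finset.card_pair (by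
      omega)] at hcard
    omega
  have fB : ∀ F : Finset ℕ, (F : Set ℕ) ⊆ EB X → F.card ≤ 4 → Forest gb F := by
    intro F hF hcard
    rw [forest_of_eq hB]
    exact ⟨hF, fun F' hF' hne => nB F' ((Finset.coe_subset.2 hF').trans hF) hne
      ((Finset.card_le_card hF').trans hcard)⟩
  have hcirc : ((circ i j k : Finset ℕ) : Set ℕ) ⊆ EB X := by
    intro e he
    rw [Finset.mem_coe, mem_circ] at he
    rcases he with h | h | h | h | h
    · exact Or.inr (Or.inr ⟨i, hi, h⟩)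
    · exact Or.inr (Or.inr ⟨j, hj, h⟩)
    · exact Or.inr (Or.inr ⟨k, hk, h⟩)
    · exact Or.inl h
    · exact Or.inr (Or.inl h)
  have hevB : EvenSet gb (circ i j k) := by
    refine evenSet_transfer hB hcirc (even_circ hi hj hk hij hik hjk hc1) ⟨3, by simp [circ]⟩ ?_
    intro a ha
    have h3 := fB ((circ i j k).erase a)
      ((Finset.coe_subset.2 (Finset.erase_subset _ _)).trans hcirc) (by
        rw [Finset.card_erase_of_mem ha]
        have : (circ i j k).card ≤ 5 := by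
          rw [circ]
          exact Finset.card_le_five
        omega)
    rwa [← forest_of_eq hB]
  have hpair : ∀ v ∈ X, ∀ e, (e = 3 ∨ e = 6) → ¬ EvenSet gb {3 * v + 1, e} := by
    intro v hv e he hev
    refine (fB {3 * v + 1, e} ?_ (Finset.card_le_two.trans (by norm_num))).2 _ subset_rfl
      ⟨e, by simp⟩ hev
    intro a ha
    simp only [Finset.coe_insert, Finset.coe_singleton, Set.mem_insert_iff,
      Set.mem_singleton_iff] at ha
    rcases ha with rfl | rfl
    · exact Or.inr (Or.inr ⟨v, hv, rfl⟩)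
    · rcases he with rfl | rfl
      · exact Or.inl rfl
      · exact Or.inr (Or.inl rfl)
  obtain ⟨χ, hle2, hinj2, hne, hnae⟩ := gadget hi hj hk hij hjk hik hs1 mB bE hevB
    (by rw [eB]; exact Or.inl rfl) (by rw [eB]; exact Or.inr (Or.inl rfl))
    (fun v hv => hpair v hv 3 (Or.inl rfl)) (fun v hv => hpair v hv 6 (Or.inr rfl))
  have hinj1 : Inj g0 ψ := by
    refine inj_of hD2 fun e he heg => ?_
    have hn : e ∉ E(g1) := fun h => Set.disjoint_left.1 hD1 he h
    rw [e0] at heg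
    rw [e1] at hn
    rcases heg with rfl | hm
    · exact hne ((hD2 _ k0.left_mem _ k0.right_mem).2
        (Relation.ReflTransGen.single ⟨0, he, k0⟩))
    · exact hn hm
  have M0 : ∀ u ∈ X, ∀ v ∈ X, Meet g0 (3 * u + 1) (3 * v + 1) ↔ Meet g (3 * u + 1) (3 * v + 1) :=
    fun u hu v hv => meet_iff hle hinj (x0 u hu) (x0 v hv)
  have M1 : ∀ u ∈ X, ∀ v ∈ X, Meet g1 (3 * u + 1) (3 * v + 1) ↔ Meet g0 (3 * u + 1) (3 * v + 1) :=
    fun u hu v hv => meet_iff hle1 hinj1 (x1 u hu) (x1 v hv)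
  have M2 : ∀ u ∈ X, ∀ v ∈ X, Meet g1 (3 * u + 1) (3 * v + 1) ↔ Meet gb (3 * u + 1) (3 * v + 1) :=
    fun u hu v hv => meet_iff hle2 hinj2 (x1 u hu) (x1 v hv)
  refine ⟨fun u hu v hv => ?_, ?_⟩
  · rw [← M0 u hu v hv, ← M1 u hu v hv, M2 u hu v hv]
  · rintro ⟨h2, h3⟩
    rw [← M0 i hi j hj, ← M1 i hi j hj] at h2
    rw [← M0 j hj k hk, ← M1 j hj k hk] at h3
    exact hnae ⟨meet_star hs1 hi hj hij h2, meet_star hs1 hj hk hjk h3⟩

end Pool.Agent.Q230.TGM
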