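import Pool.Agent.Q230.TGM.Sound

/-!
# The graphs of the reduction
-/

set_option autoImplicit false

open Classical

namespace Pool.Agent.Q230.TGM

open Graph

/-- the graph with the edges `E`, where `s e` and `t e` are the ends of `e` -/
def mkG (E : Set ℕ) (s t : ℕ → ℕ) : Graph ℕ ℕ where
  vertexSet := {x | ∃ e ∈ E, s e = x ∨ t e = x}
  IsLink e x y := e ∈ E ∧ ((s e = x ∧ t e = y) ∨ (s e = y ∧ t e = x))
  edgeSet := E
  isLink_symm := by
    intro e _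
    exact ⟨fun x y h => ⟨h.1, h.2.symm⟩⟩
  eq_or_eq_of_isLink_of_isLink := by
    rintro e x y v w ⟨_, ⟨rfl, rfl⟩ | ⟨rfl, rfl⟩⟩ ⟨_, ⟨h1, h2⟩ | ⟨h1, h2⟩⟩
    · exact Or.inl h1
    · exact Or.inr h1
    · exact Or.inr h2
    · exact Or.inl h2
  edge_mem_iff_exists_isLink := by
    intro e
    constructor
    · intro h
      exact ⟨s e, t e, h, Or.inl ⟨rfl, rfl⟩⟩
    · rintro ⟨_, _, h, _⟩
      exact h
  left_mem_of_isLink := by
    rintro e x y ⟨h, ⟨h1, _⟩ | ⟨_, h1⟩⟩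
    · exact ⟨e, h, Or.inl h1⟩
    · exact ⟨e, h, Or.inr h1⟩

theorem mkG_E (E : Set ℕ) (s t : ℕ → ℕ) : E(mkG E s t) = E := rfl

theorem mkG_ends (E : Set ℕ) (s t : ℕ → ℕ) : HasEnds (mkG E s t) s t := fun _ _ _ => Iff.rfl

theorem mkG_nonloop {E : Set ℕ} {s t : ℕ → ℕ} {e z : ℕ} :
    (mkG E s t).IsNonloopAt e z ↔ e ∈ E ∧ s e ≠ t e ∧ (s e = z ∨ t e = z) :=
  (mkG_ends E s t).nonloop e z

theorem mkG_le {E E' : Set ℕ} {s t s' t' : ℕ → ℕ} (hE : E ⊆ E') (hs : ∀ e ∈ E, s e = s' e)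
    (ht : ∀ e ∈ E, t e = t' e) : mkG E s t ≤ mkG E' s' t' := by
  constructor
  · rintro x ⟨e, he, h⟩
    refine ⟨e, hE he, ?_⟩
    rwa [← hs e he, ← ht e he]
  · rintro e x y ⟨he, h⟩
    refine ⟨hE he, ?_⟩
    rwa [← hs e he, ← ht e he]

theorem mkG_congr {E E' : Set ℕ} {s t s' t' : ℕ → ℕ} (hE : E = E') (hs : ∀ e ∈ E, s e = s' e)
    (ht : ∀ e ∈ E, t e = t' e) : mkG E s t = mkG E' s' t' := by
  subst hE
  exact le_antisymm (mkG_le subset_rfl hs ht)
    (mkG_le subset_rfl (fun e he => (hs e he).symm) fun e he => (ht e he).symm)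

theorem mkG_finite {E : Set ℕ} (hE : E.Finite) (s t : ℕ → ℕ) : V(mkG E s t).Finite := by
  refine ((hE.image s).union (hE.image t)).subset ?_
  rintro x ⟨e, he, h | h⟩
  · exact Or.inl ⟨e, he, h⟩
  · exact Or.inr ⟨e, he, h⟩

/-- the number of a truth value -/
def bn (b : Bool) : ℕ := if b then 1 else 0

theorem bn_le (b : Bool) : bn b ≤ 1 := by
  cases b <;> simp [bn]

theorem bn_inj {a b : Bool} (h : bn a = bn b) : a = b := by
  cases a <;> cases b <;> simp_all [bn]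

/-- first ends -/
def sA (τ : ℕ → Bool) (e : ℕ) : ℕ :=
  if e % 3 = 1 then bn (τ (e / 3)) else if e % 3 = 2 then bn (!τ (e / 3)) else 0

/-- second ends -/
def tA (e : ℕ) : ℕ := if e % 3 = 0 then 1 else e / 3 + 2

/-- first ends in the gadget of a clause -/
def sB (τ : ℕ → Bool) (p q : ℕ) (e : ℕ) : ℕ :=
  if e = 3 then p + 2 else if e = 6 then q + 2 else sA τ e

/-- second ends in the gadget of a clause -/
def tB (τ : ℕ → Bool) (r : ℕ) (e : ℕ) : ℕ :=
  if e = 3 then bn (τ r) else if e = 6 then r + 2 else tA e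

/-- the edges of the base graph -/
def EA (X : Set ℕ) : Set ℕ := {e | e = 0 ∨ ∃ v ∈ X, e = 3 * v + 1 ∨ e = 3 * v + 2}

/-- the edges of the tree -/
def E0 (X : Set ℕ) : Set ℕ := {e | e = 0 ∨ ∃ v ∈ X, e = 3 * v + 1}

/-- the edges of the two stars -/
def E1 (X : Set ℕ) : Set ℕ := {e | ∃ v ∈ X, e = 3 * v + 1}

/-- the edges of the gadget of a clause -/
def EB (X : Set ℕ) : Set ℕ := {e | e = 3 ∨ e = 6 ∨ ∃ v ∈ X, e = 3 * v + 1}

/-- the base graph -/
def GA (X : Set ℕ) (τ : ℕ → Bool) : Graph ℕ ℕ := mkG (EA X) (sA τ) tA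

/-- the tree -/
def G0 (X : Set ℕ) (τ : ℕ → Bool) : Graph ℕ ℕ := mkG (E0 X) (sA τ) tA

/-- the two stars -/
def G1 (X : Set ℕ) (τ : ℕ → Bool) : Graph ℕ ℕ := mkG (E1 X) (sA τ) tA

/-- the gadget of a clause -/
def GB (X : Set ℕ) (τ : ℕ → Bool) (p q r : ℕ) : Graph ℕ ℕ := mkG (EB X) (sB τ p q) (tB τ r)

theorem sA1 (τ : ℕ → Bool) (v : ℕ) : sA τ (3 * v + 1) = bn (τ v) := by
  rw [sA, if_pos (by omega), show (3 * v + 1) / 3 = v by omega]

theorem sA2 (τ : ℕ → Bool) (v : ℕ) : sA τ (3 * v + 2) = bn (!τ v) := by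
  rw [sA, if_neg (by omega), if_pos (by omega), show (3 * v + 2) / 3 = v by omega]

theorem sA0 (τ : ℕ → Bool) : sA τ 0 = 0 := rfl

theorem tA1 (v : ℕ) : tA (3 * v + 1) = v + 2 := by
  rw [tA, if_neg (by omega)]
  omega

theorem tA2 (v : ℕ) : tA (3 * v + 2) = v + 2 := by
  rw [tA, if_neg (by omega)]
  omega

theorem tA0 : tA 0 = 1 := rfl

theorem sA_le (τ : ℕ → Bool) (e : ℕ) : sA τ e ≤ 1 := by
  unfold sA
  split_ifs
  · exact bn_le _
  · exact bn_le _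
  · omega

theorem sB_x (τ : ℕ → Bool) (p q v : ℕ) : sB τ p q (3 * v + 1) = bn (τ v) := by
  rw [sB, if_neg (by omega), if_neg (by omega), sA1]

theorem tB_x (τ : ℕ → Bool) (r v : ℕ) : tB τ r (3 * v + 1) = v + 2 := by
  rw [tB, if_neg (by omega), if_neg (by omega), tA1]

theorem G1_le_G0 (X : Set ℕ) (τ : ℕ → Bool) : G1 X τ ≤ G0 X τ :=
  mkG_le (fun _ h => Or.inr h) (fun _ _ => rfl) fun _ _ => rfl

theorem G0_le_GA (X : Set ℕ) (τ : ℕ → Bool) : G0 X τ ≤ GA X τ :=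
  mkG_le (fun _ h => h.imp id fun ⟨v, hv, h'⟩ => ⟨v, hv, Or.inl h'⟩) (fun _ _ => rfl)
    fun _ _ => rfl

theorem G1_le_GB (X : Set ℕ) (τ : ℕ → Bool) (p q r : ℕ) : G1 X τ ≤ GB X τ p q r := by
  refine mkG_le (fun _ h => Or.inr (Or.inr h)) ?_ ?_
  · rintro e ⟨v, _, rfl⟩
    rw [sA1, sB_x]
  · rintro e ⟨v, _, rfl⟩
    rw [tA1, tB_x]

/-! ### The base matroid -/

/-- in an even set of the base graph both edges at a vertex `v + 2` occur, or none -/
theorem cond1 {X : Set ℕ} {τ : ℕ → Bool} {F : Finset ℕ} (hF : (F : Set ℕ) ⊆ EA X)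
    (h : EvenSet (GA X τ) F) (v : ℕ) : 3 * v + 1 ∈ F ↔ 3 * v + 2 ∈ F := by
  have key : ∀ e ∈ F, (GA X τ).IsNonloopAt e (v + 2) → e = 3 * v + 1 ∨ e = 3 * v + 2 := by
    intro e he hz
    rw [GA, mkG_nonloop] at hz
    obtain ⟨_, _, h2⟩ := hz
    have h3 := sA_le τ e
    rcases hF he with rfl | ⟨u, _, rfl | rfl⟩
    · rw [sA0, tA0] at h2
      omega
    · rw [tA1] at h2
      omega
    · rw [tA2] at h2
      omega
  constructor
  · intro h1
    have h2 : (GA X τ).IsNonloopAt (3 * v + 1) (v + 2) := by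
      rw [GA, mkG_nonloop, tA1]
      have := sA_le τ (3 * v + 1)
      exact ⟨hF h1, by omega, Or.inr rfl⟩
    obtain ⟨e, h3, h4, h5⟩ := exists_other h h1 h2
    rcases key e h3 h5 with rfl | rfl
    · exact absurd rfl h4
    · exact h3
  · intro h1
    have h2 : (GA X τ).IsNonloopAt (3 * v + 2) (v + 2) := by
      rw [GA, mkG_nonloop, tA2]
      have := sA_le τ (3 * v + 2)
      exact ⟨hF h1, by omega, Or.inr rfl⟩
    obtain ⟨e, h3, h4, h5⟩ := exists_other h h1 h2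
    rcases key e h3 h5 with rfl | rfl
    · exact h3
    · exact absurd rfl h4

/-- the exchange of the two edges at the vertices where `τ` and `τ'` differ -/
def sw (τ τ' : ℕ → Bool) (e : ℕ) : ℕ :=
  if τ (e / 3) = τ' (e / 3) then e else if e % 3 = 1 then e + 1 else if e % 3 = 2 then e - 1 else e

theorem sw_spec (τ τ' : ℕ → Bool) (e : ℕ) : sA τ' e = sA τ (sw τ τ' e) ∧ tA e = tA (sw τ τ' e) ∧
    sw τ τ' (sw τ τ' e) = e := by
  unfold sw
  by_cases h : τ (e / 3) = τ' (e / 3)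
  · simp only [h, if_true]
    refine ⟨?_, by trivial, by trivial⟩
    unfold sA
    rw [h]
  · rw [if_neg h]
    have h' : τ' (e / 3) = !τ (e / 3) := by
      cases h1 : τ (e / 3) <;> cases h2 : τ' (e / 3) <;> simp_all
    obtain ⟨v, hv⟩ : ∃ v, e / 3 = v := ⟨_, rfl⟩
    have h3 : e = 3 * v ∨ e = 3 * v + 1 ∨ e = 3 * v + 2 := by omega
    rcases h3 with rfl | rfl | rfl
    · rw [if_neg (by omega), if_neg (by omega), if_neg h, if_neg (by omega), if_neg (by omega)]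
      refine ⟨?_, rfl, rfl⟩
      rw [sA, sA, if_neg (by omega), if_neg (by omega), if_neg (by omega), if_neg (by omega)]
    · rw [if_pos (by omega)]
      have h4 : (3 * v + 1) / 3 = v := by omega
      have h5 : (3 * v + 1 + 1) / 3 = v := by omega
      rw [h4] at h h'
      rw [h5, if_neg h, if_neg (by omega), if_pos (by omega), sA1,
        show 3 * v + 1 + 1 = 3 * v + 2 by omega, sA2, h', tA1, tA2]
      exact ⟨rfl, rfl, by omega⟩
    · rw [if_neg (by omega), if_pos (by omega)]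
      have h4 : (3 * v + 2) / 3 = v := by omega
      have h5 : (3 * v + 2 - 1) / 3 = v := by omega
      rw [h4] at h h'
      rw [h5, if_neg h, if_pos (by omega), sA2,
        show 3 * v + 2 - 1 = 3 * v + 1 by omega, sA1, h', tA1, tA2, Bool.not_not]
      exact ⟨rfl, rfl, by omega⟩

theorem even_GA {X : Set ℕ} {τ τ' : ℕ → Bool} {F : Finset ℕ} (hF : (F : Set ℕ) ⊆ EA X)
    (h : EvenSet (GA X τ) F) : EvenSet (GA X τ') F := by
  have hc := cond1 hF h
  have h1 := ((mkG_ends (EA X) (sA τ) tA).even_iff hF).1 h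
  refine ((mkG_ends (EA X) (sA τ') tA).even_iff hF).2 ?_
  rw [← h1, bd, bd]
  have hmem : ∀ e ∈ F, sw τ τ' e ∈ F := by
    intro e he
    unfold sw
    by_cases h : τ (e / 3) = τ' (e / 3)
    · rwa [if_pos h]
    · rw [if_neg h]
      by_cases h2 : e % 3 = 1
      · rw [if_pos h2]
        have := (hc (e / 3)).1 (by rwa [show 3 * (e / 3) + 1 = e by omega])
        rwa [show 3 * (e / 3) + 2 = e + 1 by omega] at this
      · rw [if_neg h2]
        by_cases h3 : e % 3 = 2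
        · rw [if_pos h3]
          have := (hc (e / 3)).2 (by rwa [show 3 * (e / 3) + 2 = e by omega])
          rwa [show 3 * (e / 3) + 1 = e - 1 by omega] at this
        · rwa [if_neg h3]
  refine Finset.sum_nbij' (sw τ τ') (sw τ τ') hmem hmem (fun e _ => (sw_spec τ τ' e).2.2)
    (fun e _ => (sw_spec τ τ' e).2.2) fun e _ => ?_
  rw [(sw_spec τ τ' e).1, (sw_spec τ τ' e).2.1]

theorem matA (X : Set ℕ) (τ τ' : ℕ → Bool) :
    cycleMatroid (GA X τ) = cycleMatroid (GA X τ') :=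
  cycleMatroid_congr rfl fun _ hF => ⟨even_GA hF, even_GA hF⟩

theorem even_GA_triple {X : Set ℕ} (τ : ℕ → Bool) {v : ℕ} (hv : v ∈ X) :
    EvenSet (GA X τ) {0, 3 * v + 1, 3 * v + 2} := by
  have h0 : (GA X τ).IsLink 0 0 1 := ⟨Or.inl rfl, Or.inl ⟨rfl, rfl⟩⟩
  have h1 : (GA X τ).IsLink (3 * v + 1) (bn (τ v)) (v + 2) :=
    ⟨Or.inr ⟨v, hv, Or.inl rfl⟩, Or.inl ⟨sA1 _ _, tA1 _⟩⟩
  have h2 : (GA X τ).IsLink (3 * v + 2) (bn (!τ v)) (v + 2) :=
    ⟨Or.inr ⟨v, hv, Or.inr rfl⟩, Or.inl ⟨sA2 _ _, tA2 _⟩⟩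
  cases h : τ v
  · rw [h] at h1 h2
    exact even_triple (by omega) (by omega) (by omega) h0 h1 h2
  · rw [h] at h1 h2
    exact even_triple (by omega) (by omega) (by omega) h0.symm h1 h2

/-- no even set of the base graph contains `0` alone or is contained in a set without a pair -/
theorem even_GA_zero {X : Set ℕ} {τ : ℕ → Bool} {F : Finset ℕ} (hF : (F : Set ℕ) ⊆ EA X)
    (h : EvenSet (GA X τ) F) (hne : F.Nonempty) : 0 ∈ F ∨ ∃ u v, u ≠ v ∧ 3 * u + 1 ∈ F ∧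
      3 * v + 1 ∈ F := by
  obtain ⟨e, he⟩ := hne
  have h1 : ∃ v, 3 * v + 1 ∈ F ∨ 0 ∈ F := by
    rcases hF he with rfl | ⟨v, _, rfl | rfl⟩
    · exact ⟨0, Or.inr he⟩
    · exact ⟨v, Or.inl he⟩
    · exact ⟨v, Or.inl ((cond1 hF h v).2 he)⟩
  obtain ⟨v, h1 | h1⟩ := h1
  · have h2 : (GA X τ).IsNonloopAt (3 * v + 1) (bn (τ v)) := by
      rw [GA, mkG_nonloop, sA1, tA1]
      have := bn_le (τ v)
      exact ⟨hF h1, by omega, Or.inl rfl⟩
    obtain ⟨e', h3, h4, h5⟩ := exists_other h h1 h2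
    rcases hF h3 with rfl | ⟨u, _, rfl | rfl⟩
    · exact Or.inl h3
    · refine Or.inr ⟨u, v, ?_, h3, h1⟩
      rintro rfl
      exact h4 rfl
    · refine Or.inr ⟨u, v, ?_, (cond1 hF h u).2 h3, h1⟩
      rintro rfl
      rw [GA, mkG_nonloop, sA2, tA2] at h5
      have := bn_le (τ u)
      rcases h5.2.2 with h6 | h6
      · have := bn_inj h6
        cases hh : τ u <;> rw [hh] at this <;> simp at this
      · omega
  · exact Or.inl h1

theorem even_GA_zero' {X : Set ℕ} {τ : ℕ → Bool} {F : Finset ℕ} (hF : (F : Set ℕ) ⊆ EA X)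
    (h : EvenSet (GA X τ) F) (h0 : 0 ∈ F) : ∃ v, 3 * v + 1 ∈ F ∧ 3 * v + 2 ∈ F := by
  have h2 : (GA X τ).IsNonloopAt 0 0 := by
    rw [GA, mkG_nonloop, sA0, tA0]
    exact ⟨Or.inl rfl, by omega, Or.inl rfl⟩
  obtain ⟨e', h3, h4, h5⟩ := exists_other h h0 h2
  rcases hF h3 with rfl | ⟨u, _, rfl | rfl⟩
  · exact absurd rfl h4
  · exact ⟨u, h3, (cond1 hF h u).1 h3⟩
  · exact ⟨u, (cond1 hF h u).2 h3, h3⟩

theorem forest_GA {X : Set ℕ} (τ : ℕ → Bool) {F : Finset ℕ} (hF : (F : Set ℕ) ⊆ EA X)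
    (h : ∀ v, 3 * v + 1 ∈ F → 3 * v + 2 ∈ F → F = {3 * v + 1, 3 * v + 2}) :
    Forest (GA X τ) F := by
  refine ⟨hF, fun F' hF' hne hev => ?_⟩
  have hF2 : (F' : Set ℕ) ⊆ EA X := (Finset.coe_subset.2 hF').trans hF
  have key : ∀ v, ¬ (3 * v + 1 ∈ F' ∧ 3 * v + 2 ∈ F') := by
    rintro v ⟨h1, h2⟩
    have h3 := h v (hF' h1) (hF' h2)
    rcases even_GA_zero hF2 hev hne with h4 | ⟨u, w, h4, h5, h6⟩
    · have h7 := hF' h4
      rw [h3] at h7
      simp at h7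
    · have h7 := hF' h5
      have h8 := hF' h6
      rw [h3] at h7 h8
      simp only [Finset.mem_insert, Finset.mem_singleton] at h7 h8
      omega
  rcases even_GA_zero hF2 hev hne with h4 | ⟨u, w, h4, h5, h6⟩
  · obtain ⟨v, h5⟩ := even_GA_zero' hF2 hev h4
    exact key v h5
  · exact key u ⟨h5, (cond1 hF2 hev u).1 h5⟩

/-! ### The tree -/

theorem forest_G0 {X : Set ℕ} (τ : ℕ → Bool) {F : Finset ℕ} (hF : (F : Set ℕ) ⊆ E0 X) :
    Forest (G0 X τ) F := by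
  rw [forest_le (G0_le_GA X τ) hF]
  refine forest_GA τ (hF.trans fun _ h => h.imp id fun ⟨v, hv, h'⟩ => ⟨v, hv, Or.inl h'⟩) ?_
  intro v _ h2
  rcases hF h2 with h3 | ⟨u, _, h3⟩
  · omega
  · omega

theorem mat0 (X : Set ℕ) (τ τ' : ℕ → Bool) :
    cycleMatroid (G0 X τ) = cycleMatroid (G0 X τ') := by
  refine cycleMatroid_congr rfl fun F hF => ?_
  by_cases h : F.Nonempty
  · constructor
    · intro h1
      exact absurd h1 ((forest_G0 τ hF).2 F subset_rfl h)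
    · intro h1
      exact absurd h1 ((forest_G0 τ' hF).2 F subset_rfl h)
  · rw [Finset.not_nonempty_iff_eq_empty] at h
    subst h
    constructor <;> intro _ z <;> simp

theorem mat1 (X : Set ℕ) (τ τ' : ℕ → Bool) :
    cycleMatroid (G1 X τ) = cycleMatroid (G1 X τ') := by
  refine cycleMatroid_congr rfl fun F hF => ?_
  have h0 : (F : Set ℕ) ⊆ E0 X := hF.trans fun _ h => Or.inr h
  by_cases h : F.Nonempty
  · constructor
    · intro h1
      rw [evenSet_le (G1_le_G0 X τ) hF] at h1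
      exact absurd h1 ((forest_G0 τ h0).2 F subset_rfl h)
    · intro h1
      rw [evenSet_le (G1_le_G0 X τ') hF] at h1
      exact absurd h1 ((forest_G0 τ' h0).2 F subset_rfl h)
  · rw [Finset.not_nonempty_iff_eq_empty] at h
    subst h
    constructor <;> intro _ z <;> simp

end Pool.Agent.Q230.TGM
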