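import Pool.Agent.Q230.TGM.Half

/-!
# The sequence of matroids
-/

set_option autoImplicit false

open Classical

namespace Pool.Agent.Q230.TGM

open Graph

/-- the sequence: for each clause `A, F0, F, B, F, F0`, and `A` at the end -/
def sq {α γ : Type} (A F0 F : α) (B : γ → α) : List γ → List α
  | [] => [A]
  | c :: cl => A :: F0 :: F :: B c :: F :: F0 :: sq A F0 F B cl

theorem sq_cons {α γ : Type} (A F0 F : α) (B : γ → α) (cl : List γ) :
    ∃ l, sq A F0 F B cl = A :: l := by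
  cases cl with
  | nil => exact ⟨[], rfl⟩
  | cons c cl => exact ⟨_, rfl⟩

theorem sq_map {α β γ : Type} (f : α → β) (A F0 F : α) (B : γ → α) (cl : List γ) :
    (sq A F0 F B cl).map f = sq (f A) (f F0) (f F) (fun c => f (B c)) cl := by
  induction cl with
  | nil => rfl
  | cons c cl ih => simp only [sq, List.map_cons, ih]

theorem sq_mem {α γ : Type} {A F0 F : α} {B : γ → α} {cl : List γ} {x : α}
    (h : x ∈ sq A F0 F B cl) : x = A ∨ x = F0 ∨ x = F ∨ ∃ c ∈ cl, x = B c := by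
  induction cl with
  | nil => exact Or.inl (by simpa [sq] using h)
  | cons c cl ih =>
    simp only [sq, List.mem_cons] at h
    rcases h with h | h | h | h | h | h | h
    · exact Or.inl h
    · exact Or.inr (Or.inl h)
    · exact Or.inr (Or.inr (Or.inl h))
    · exact Or.inr (Or.inr (Or.inr ⟨c, by simp, h⟩))
    · exact Or.inr (Or.inr (Or.inl h))
    · exact Or.inr (Or.inl h)
    · rcases ih h with h | h | h | ⟨d, hd, h⟩
      · exact Or.inl h
      · exact Or.inr (Or.inl h)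
      · exact Or.inr (Or.inr (Or.inl h))
      · exact Or.inr (Or.inr (Or.inr ⟨d, by simp [hd], h⟩))

theorem sq_chain {α γ : Type} {R : α → α → Prop} {A F0 F : α} {B : γ → α} {cl : List γ}
    (h : cl ≠ [] → R A F0 ∧ R F0 F ∧ R F F0 ∧ R F0 A) (h1 : ∀ c ∈ cl, R F (B c) ∧ R (B c) F) :
    (sq A F0 F B cl).IsChain R := by
  induction cl with
  | nil => exact List.isChain_singleton _
  | cons c cl ih =>
    obtain ⟨a1, a2, a3, a4⟩ := h (by simp)
    obtain ⟨b1, b2⟩ := h1 c (by simp)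
    have ih' := ih (fun _ => ⟨a1, a2, a3, a4⟩) fun d hd => h1 d (by simp [hd])
    obtain ⟨l, hl⟩ := sq_cons A F0 F B cl
    rw [sq, hl]
    rw [hl] at ih'
    simp only [List.isChain_cons_cons]
    exact ⟨a1, a2, b1, b2, a3, a4, ih'⟩

/-- clauses -/
abbrev Cl : Type := ℕ × ℕ × ℕ

/-- the relation between consecutive graphs -/
def Rel (p q : Matroid ℕ × Graph ℕ ℕ) : Prop :=
  (p.1 ≤m q.1 → GMinor p.2 q.2) ∧ (q.1 ≤m p.1 → GMinor q.2 p.2)

/-- the values of the variables in the graph given for a clause -/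
def tc (k : ℕ) (v : ℕ) : Bool := decide (v = k)

/-- the matroids of the sequence -/
noncomputable def mA (X : Set ℕ) : Matroid ℕ := cycleMatroid (GA X fun _ => false)

/-- the matroids of the sequence -/
noncomputable def m0 (X : Set ℕ) : Matroid ℕ := cycleMatroid (G0 X fun _ => false)

/-- the matroids of the sequence -/
noncomputable def m1 (X : Set ℕ) : Matroid ℕ := cycleMatroid (G1 X fun _ => false)

/-- the matroids of the sequence -/
noncomputable def mB (X : Set ℕ) (c : Cl) : Matroid ℕ :=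
  cycleMatroid (GB X (tc c.2.2) c.1 c.2.1 c.2.2)

theorem min0A (X : Set ℕ) : m0 X ≤m mA X := isMinor_of_le (G0_le_GA X _)

theorem min10 (X : Set ℕ) : m1 X ≤m m0 X := isMinor_of_le (G1_le_G0 X _)

theorem min1B (X : Set ℕ) (c : Cl) : m1 X ≤m mB X c := by
  rw [m1, mat1 X _ (tc c.2.2)]
  exact isMinor_of_le (G1_le_GB X _ _ _ _)

/-- a good clause -/
def Good (X : Set ℕ) (c : Cl) : Prop :=
  c.1 ∈ X ∧ c.2.1 ∈ X ∧ c.2.2 ∈ X ∧ c.1 ≠ c.2.1 ∧ c.2.1 ≠ c.2.2 ∧ c.1 ≠ c.2.2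

/-- the edges of the variables of the clause do not all have a common end -/
def Nae (G : Graph ℕ ℕ) (c : Cl) : Prop :=
  ¬ (Meet G (3 * c.1 + 1) (3 * c.2.1 + 1) ∧ Meet G (3 * c.2.1 + 1) (3 * c.2.2 + 1))

theorem sound_aux {X : Set ℕ} {cl : List Cl} (hcl : ∀ c ∈ cl, Good X c) :
    ∀ P : List (Matroid ℕ × Graph ℕ ℕ), P.map Prod.fst = sq (mA X) (m0 X) (m1 X) (mB X) cl →
      (∀ p ∈ P, cycleMatroid p.2 = p.1) → P.IsChain Rel →
      ∃ g P', P = (mA X, g) :: P' ∧ ∀ c ∈ cl, Nae g c := by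
  induction cl with
  | nil =>
    intro P hP _ _
    simp only [sq] at hP
    obtain ⟨⟨M, g⟩, P', rfl, h2, _⟩ := List.map_eq_cons_iff.1 hP
    simp only at h2
    exact ⟨g, P', by rw [h2], by simp⟩
  | cons c cl ih =>
    intro P hP hM hR
    simp only [sq] at hP
    obtain ⟨⟨M₁, g₁⟩, P₁, rfl, h1, hP1⟩ := List.map_eq_cons_iff.1 hP
    obtain ⟨⟨M₂, g₂⟩, P₂, rfl, h2, hP2⟩ := List.map_eq_cons_iff.1 hP1
    obtain ⟨⟨M₃, g₃⟩, P₃, rfl, h3, hP3⟩ := List.map_eq_cons_iff.1 hP2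
    obtain ⟨⟨M₄, g₄⟩, P₄, rfl, h4, hP4⟩ := List.map_eq_cons_iff.1 hP3
    obtain ⟨⟨M₅, g₅⟩, P₅, rfl, h5, hP5⟩ := List.map_eq_cons_iff.1 hP4
    obtain ⟨⟨M₆, g₆⟩, P₆, rfl, h6, hP6⟩ := List.map_eq_cons_iff.1 hP5
    simp only at h1 h2 h3 h4 h5 h6
    subst h1 h2 h3 h4 h5 h6
    simp only [List.mem_cons, forall_eq_or_imp] at hM
    obtain ⟨c1, c2, c3, c4, c5, c6, hM⟩ := hM
    simp only [List.isChain_cons_cons] at hR
    obtain ⟨r1, r2, r3, r4, r5, hR⟩ := hR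
    have hR' : P₆.IsChain Rel := hR.tail
    obtain ⟨g₇, P₇, rfl, h8⟩ := ih (fun d hd => hcl d (by simp [hd])) P₆ hP6 hM hR'
    have r6 : Rel (m0 X, g₆) (mA X, g₇) := by
      simp only [List.isChain_cons_cons] at hR
      exact hR.1
    have c7 : cycleMatroid g₇ = mA X := hM (mA X, g₇) (by simp)
    obtain ⟨x1, x2, x3, n1, n2, n3⟩ := hcl c (by simp)
    have t1 : tc c.2.2 c.1 = tc c.2.2 c.2.1 := by simp [tc, n2, n3]
    have t2 : tc c.2.2 c.1 ≠ tc c.2.2 c.2.2 := by simp [tc, n3]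
    obtain ⟨H1, H2⟩ := half (X := X) x1 x2 x3 n1 n2 n3 t1 t2 c1 c2 c3 c4 (r1.2 (min0A X))
      (r2.2 (min10 X)) (r3.1 (min1B X c))
    obtain ⟨H3, _⟩ := half (X := X) x1 x2 x3 n1 n2 n3 t1 t2 c7 c6 c5 c4 (r6.1 (min0A X))
      (r5.1 (min10 X)) (r4.2 (min1B X c))
    refine ⟨g₁, _, rfl, fun d hd => ?_⟩
    rw [List.mem_cons] at hd
    rcases hd with rfl | hd
    · exact H2
    · obtain ⟨y1, y2, y3, _⟩ := hcl d (by simp [hd])
      have := h8 d hd
      unfold Nae at this ⊢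
      rw [H1 _ y1 _ y2, H1 _ y2 _ y3, ← H3 _ y1 _ y2, ← H3 _ y2 _ y3]
      exact this

/-- A simultaneously graphic sequence gives a truth assignment. -/
theorem sound {X : Set ℕ} {cl : List Cl} (hcl : ∀ c ∈ cl, Good X c)
    (h : SimGraphic (sq (mA X) (m0 X) (m1 X) (mB X) cl)) :
    ∃ τ : ℕ → Bool, ∀ c ∈ cl, ¬ (τ c.1 = τ c.2.1 ∧ τ c.2.1 = τ c.2.2) := by
  obtain ⟨P, hP, hM, hR⟩ := h
  obtain ⟨g, P', rfl, hn⟩ := sound_aux hcl P hP (fun p hp => (hM p hp).2.2) hR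
  rcases cl with _ | ⟨c₀, cl⟩
  · exact ⟨fun _ => false, by simp⟩
  obtain ⟨x1, _⟩ := hcl c₀ (by simp)
  have hA : cycleMatroid g = mA X := (hM (mA X, g) (by simp)).2.2
  obtain ⟨a, b, σ, ρ, w, hab, l0, hs, _⟩ := starA' hA x1
  refine ⟨fun v => decide (σ v = a), fun c hc hE => hn c hc ?_⟩
  obtain ⟨y1, y2, y3, _⟩ := hcl c hc
  have key : ∀ u ∈ X, ∀ v ∈ X, decide (σ u = a) = decide (σ v = a) →
      Meet g (3 * u + 1) (3 * v + 1) := by
    intro u hu v hv h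
    have h' : σ u = σ v := by
      rcases (hs u hu).2.1 with q | q <;> rcases (hs v hv).2.1 with q' | q'
      · exact q.trans q'.symm
      · simp [q, q', Ne.symm hab] at h
      · simp [q, q', Ne.symm hab] at h
      · exact q.trans q'.symm
    exact ⟨σ u, ⟨_, (hs u hu).1⟩, ⟨_, h' ▸ (hs v hv).1⟩⟩
  exact ⟨key _ y1 _ y2 hE.1, key _ y2 _ y3 hE.2⟩

/-! ### Completeness -/

theorem gminor_of_le {G H : Graph ℕ ℕ} (h : G ≤ H) : GMinor G H := by
  refine ⟨∅, id, by simp, fun u _ v _ => ?_, by rwa [Graph.map_id]⟩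
  constructor
  · intro h
    rw [id, id] at h
    rw [h]
    exact Relation.ReflTransGen.refl
  · intro h
    by_contra hne
    obtain ⟨e, he, _⟩ := joined_mem h hne
    exact he

theorem rel_of_le {M N : Matroid ℕ} {G H : Graph ℕ ℕ} (h : G ≤ H) (hn : ¬ N ≤m M) :
    Rel (M, G) (N, H) ∧ Rel (N, H) (M, G) :=
  ⟨⟨fun _ => gminor_of_le h, fun h' => absurd h' hn⟩,
    ⟨fun h' => absurd h' hn, fun _ => gminor_of_le h⟩⟩

theorem not_minor {M N : Matroid ℕ} {e : ℕ} (h1 : e ∈ N.E) (h2 : e ∉ M.E) : ¬ N ≤m M :=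
  fun h => h2 (h.subset h1)

theorem fin_E {X : Set ℕ} (hX : X.Finite) (E : Set ℕ)
    (h : E ⊆ {0, 3, 6} ∪ ((fun v => 3 * v + 1) '' X ∪ (fun v => 3 * v + 2) '' X)) : E.Finite :=
  (((Set.finite_singleton 6).insert 3).insert 0 |>.union
    ((hX.image _).union (hX.image _))).subset h

theorem fin_EA {X : Set ℕ} (hX : X.Finite) : (EA X).Finite := by
  refine fin_E hX _ ?_
  rintro e (rfl | ⟨v, hv, rfl | rfl⟩)
  · simp
  · exact Or.inr (Or.inl ⟨v, hv, rfl⟩)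
  · exact Or.inr (Or.inr ⟨v, hv, rfl⟩)

theorem fin_EB {X : Set ℕ} (hX : X.Finite) : (EB X).Finite := by
  refine fin_E hX _ ?_
  rintro e (rfl | rfl | ⟨v, hv, rfl⟩)
  · simp
  · simp
  · exact Or.inr (Or.inl ⟨v, hv, rfl⟩)

/-- the third variable of the gadget: the one with the value different from the other two -/
noncomputable def ord (τ : ℕ → Bool) (c : Cl) : Cl :=
  if τ c.1 = τ c.2.1 then c else if τ c.1 = τ c.2.2 then (c.1, c.2.2, c.2.1) else
    (c.2.1, c.2.2, c.1)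

theorem complete {X : Set ℕ} (hX : X.Finite) {cl : List Cl} (hcl : ∀ c ∈ cl, Good X c)
    {τ : ℕ → Bool} (h : ∀ c ∈ cl, ¬ (τ c.1 = τ c.2.1 ∧ τ c.2.1 = τ c.2.2)) :
    SimGraphic (sq (mA X) (m0 X) (m1 X) (mB X) cl) := by
  have hB : ∀ c ∈ cl, cycleMatroid (GB X τ (ord τ c).1 (ord τ c).2.1 (ord τ c).2.2) = mB X c := by
    intro c hc
    obtain ⟨x1, x2, x3, n1, n2, n3⟩ := hcl c hc
    have h1 := h c hc
    have t1 : tc c.2.2 c.1 = tc c.2.2 c.2.1 := by simp [tc, n2, n3]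
    have t2 : tc c.2.2 c.1 ≠ tc c.2.2 c.2.2 := by simp [tc, n3]
    unfold ord
    by_cases k1 : τ c.1 = τ c.2.1
    · rw [if_pos k1]
      exact matB x1 x2 x3 x1 x2 x3 n1 n3 n2 n1 n3 n2 k1 (fun h' => h1 ⟨k1, k1.symm.trans h'⟩) t1 t2
        rfl
    · rw [if_neg k1]
      by_cases k2 : τ c.1 = τ c.2.2
      · rw [if_pos k2]
        refine matB x1 x3 x2 x1 x2 x3 n3 n1 n2.symm n1 n3 n2 k2 k1 t1 t2 ?_
        ext v
        simp only [Set.mem_insert_iff, Set.mem_singleton_iff]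
        tauto
      · rw [if_neg k2]
        have k3 : τ c.2.1 = τ c.2.2 := by
          cases h1 : τ c.1 <;> cases h2 : τ c.2.1 <;> cases h3 : τ c.2.2 <;> simp_all
        refine matB x2 x3 x1 x1 x2 x3 n2 n1.symm n3.symm n1 n3 n2 k3 (Ne.symm k1) t1 t2 ?_
        ext v
        simp only [Set.mem_insert_iff, Set.mem_singleton_iff]
        tauto
  refine ⟨sq (mA X, GA X τ) (m0 X, G0 X τ) (m1 X, G1 X τ)
    (fun c => (mB X c, GB X τ (ord τ c).1 (ord τ c).2.1 (ord τ c).2.2)) cl, sq_map _ _ _ _ _ _,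
    fun p hp => ?_, ?_⟩
  · rcases sq_mem hp with rfl | rfl | rfl | ⟨c, hc, rfl⟩
    · exact ⟨mkG_finite (fin_EA hX) _ _, fin_EA hX, matA X _ _⟩
    · have hf : (E0 X).Finite := (fin_EA hX).subset fun e he => he.imp id
        fun ⟨v, hv, h'⟩ => ⟨v, hv, Or.inl h'⟩
      exact ⟨mkG_finite hf _ _, hf, mat0 X _ _⟩
    · have hf : (E1 X).Finite := (fin_EA hX).subset fun e ⟨v, hv, h'⟩ => Or.inr ⟨v, hv, Or.inl h'⟩
      exact ⟨mkG_finite hf _ _, hf, mat1 X _ _⟩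
    · exact ⟨mkG_finite (fin_EB hX) _ _, fin_EB hX, hB c hc⟩
  · refine sq_chain ?_ fun c hc => ?_
    · intro hne
      obtain ⟨c, hc⟩ := List.exists_mem_of_ne_nil _ hne
      obtain ⟨x1, _⟩ := hcl c hc
      have r1 := rel_of_le (M := m0 X) (N := mA X) (G0_le_GA X τ) (not_minor (e := 3 * c.1 + 2)
        (Or.inr ⟨_, x1, Or.inr rfl⟩) (by
          rintro (h' | ⟨v, _, h'⟩)
          · omega
          · omega))
      have r2 := rel_of_le (M := m1 X) (N := m0 X) (G1_le_G0 X τ) (not_minor (e := 0)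
        (Or.inl rfl) (by
          rintro ⟨v, _, h'⟩
          omega))
      exact ⟨r1.2, r2.2, r2.1, r1.1⟩
    · exact rel_of_le (M := m1 X) (N := mB X c) (G1_le_GB X τ _ _ _) (not_minor (e := 3)
        (Or.inl rfl) (by
          rintro ⟨v, _, h'⟩
          omega))

theorem temporal {X : Set ℕ} {cl : List Cl} :
    Temporal (sq (mA X) (m0 X) (m1 X) (mB X) cl) :=
  sq_chain (fun _ => ⟨Or.inr (min0A X), Or.inr (min10 X), Or.inl (min10 X), Or.inl (min0A X)⟩)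
    fun c _ => ⟨Or.inl (min1B X c), Or.inr (min1B X c)⟩

end Pool.Agent.Q230.TGM
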