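import Pool.Agent.Q230.TGM.Main
import Pool.Agent.Q231.NaeN

/-!
# The reduction
-/

set_option autoImplicit false

namespace Pool.Agent.Q230.TGM

open Graph Pool.Agent.NPC Pool.Agent.Q231.NaeN

/-! ### Not-all-equal satisfiability with distinct variables -/

/-- the variables of each clause are distinct -/
def Dist (φ : List Cl) : Prop := ∀ c ∈ φ, c.1 ≠ c.2.1 ∧ c.2.1 ≠ c.2.2 ∧ c.1 ≠ c.2.2

/-- clauses which say that `x` and `y` are different -/
def neq (x y z : ℕ) : List Cl := [(x, y, z), (x, y, z + 1), (x, y, z + 2), (z, z + 1, z + 2)]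

/-- the clauses for one clause -/
def cls (c : Cl) (i : ℕ) : List Cl :=
  (16 * i + 1, 16 * i + 2, 16 * i + 3) :: (neq (16 * c.1) (16 * i + 1) (16 * i + 4) ++
    (neq (16 * c.2.1) (16 * i + 2) (16 * i + 7) ++ neq (16 * c.2.2) (16 * i + 3) (16 * i + 10)))

/-- the new clauses -/
def dis (φ : List Cl) : List Cl := φ.zipIdx.flatMap fun p => cls p.1 p.2

theorem dist_dis (φ : List Cl) : Dist (dis φ) := by
  intro c hc
  simp only [dis, List.mem_flatMap] at hc
  obtain ⟨⟨d, i⟩, _, hc⟩ := hc
  simp only [cls, neq, List.mem_cons, List.mem_append, List.not_mem_nil, or_false] at hc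
  rcases hc with rfl | (rfl | rfl | rfl | rfl) | (rfl | rfl | rfl | rfl) | (rfl | rfl | rfl | rfl) <;>
    refine ⟨?_, ?_, ?_⟩ <;> simp only <;> omega

theorem neq_of {τ : ℕ → Bool} {x y z : ℕ}
    (h : ∀ c ∈ neq x y z, ¬ (τ c.1 = τ c.2.1 ∧ τ c.2.1 = τ c.2.2)) : τ x ≠ τ y := by
  have h1 := h (x, y, z) (by simp [neq])
  have h2 := h (x, y, z + 1) (by simp [neq])
  have h3 := h (x, y, z + 2) (by simp [neq])
  have h4 := h (z, z + 1, z + 2) (by simp [neq])
  simp only at h1 h2 h3 h4
  cases h5 : τ x <;> cases h6 : τ y <;> cases h7 : τ z <;> cases h8 : τ (z + 1) <;>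
    cases h9 : τ (z + 2) <;> simp_all

theorem of_neq {τ : ℕ → Bool} {x y z : ℕ} (h : τ x ≠ τ y) (h1 : τ z = true)
    (h2 : τ (z + 1) = false) : ∀ c ∈ neq x y z, ¬ (τ c.1 = τ c.2.1 ∧ τ c.2.1 = τ c.2.2) := by
  intro c hc
  simp only [neq, List.mem_cons, List.not_mem_nil, or_false] at hc
  rcases hc with rfl | rfl | rfl | rfl
  · exact fun h' => h h'.1
  · exact fun h' => h h'.1
  · exact fun h' => h h'.1
  · simp [h1, h2]

theorem nae_not : ∀ a b c a' b' c' : Bool, a ≠ a' → b ≠ b' → c ≠ c' →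
    (¬ (a' = b' ∧ b' = c') ↔ ¬ (a = b ∧ b = c)) := by
  intro a b c a' b' c'
  cases a <;> cases b <;> cases c <;> cases a' <;> cases b' <;> cases c' <;> simp

theorem dis_correct (φ : List Cl) : NAEn φ ↔ NAEn (dis φ) := by
  constructor
  · rintro ⟨τ, hτ⟩
    let ρ : ℕ → Bool := fun n =>
      if n % 16 = 0 then τ (n / 16) else
        match φ[n / 16]? with
        | some c => if n % 16 = 1 then !τ c.1 else if n % 16 = 2 then !τ c.2.1 else
            if n % 16 = 3 then !τ c.2.2 else
            if n % 16 = 4 then true else if n % 16 = 7 then true else if n % 16 = 10 then true else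
            false
        | none => false
    have h0 : ∀ v, ρ (16 * v) = τ v := by
      intro v
      have e1 : 16 * v % 16 = 0 := by omega
      have e2 : 16 * v / 16 = v := by omega
      simp only [ρ, e1, e2, if_true]
    refine ⟨ρ, fun c hc => ?_⟩
    simp only [dis, List.mem_flatMap] at hc
    obtain ⟨⟨d, i⟩, hdi, hc⟩ := hc
    rw [List.mem_zipIdx_iff_getElem?] at hdi
    simp only at hdi hc
    have hj : ∀ j, 0 < j → j < 16 → ρ (16 * i + j) = (if j = 1 then !τ d.1 else
        if j = 2 then !τ d.2.1 else if j = 3 then !τ d.2.2 else if j = 4 then true else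
        if j = 7 then true else if j = 10 then true else false) := by
      intro j h1 h2
      have e1 : (16 * i + j) % 16 = j := by omega
      have e2 : (16 * i + j) / 16 = i := by omega
      have e3 : j ≠ 0 := by omega
      simp only [ρ, e1, e2, e3, if_false, hdi]
    have r1 : ρ (16 * i + 1) = !τ d.1 := by rw [hj 1 (by omega) (by omega)]; simp
    have r2 : ρ (16 * i + 2) = !τ d.2.1 := by rw [hj 2 (by omega) (by omega)]; simp
    have r3 : ρ (16 * i + 3) = !τ d.2.2 := by rw [hj 3 (by omega) (by omega)]; simp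
    have r4 : ρ (16 * i + 4) = true := by rw [hj 4 (by omega) (by omega)]; simp
    have r5 : ρ (16 * i + 4 + 1) = false := by
      rw [show 16 * i + 4 + 1 = 16 * i + 5 by omega, hj 5 (by omega) (by omega)]; simp
    have r7 : ρ (16 * i + 7) = true := by rw [hj 7 (by omega) (by omega)]; simp
    have r8 : ρ (16 * i + 7 + 1) = false := by
      rw [show 16 * i + 7 + 1 = 16 * i + 8 by omega, hj 8 (by omega) (by omega)]; simp
    have r10 : ρ (16 * i + 10) = true := by rw [hj 10 (by omega) (by omega)]; simp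
    have r11 : ρ (16 * i + 10 + 1) = false := by
      rw [show 16 * i + 10 + 1 = 16 * i + 11 by omega, hj 11 (by omega) (by omega)]; simp
    have hd := hτ d (List.mem_of_getElem? hdi)
    simp only [cls, List.mem_cons, List.mem_append] at hc
    rcases hc with rfl | hc | hc | hc
    · simp only
      rw [r1, r2, r3]
      exact (nae_not _ _ _ _ _ _ (by simp) (by simp) (by simp)).2 hd
    · exact of_neq (by rw [h0, r1]; simp) r4 r5 c hc
    · exact of_neq (by rw [h0, r2]; simp) r7 r8 c hc
    · exact of_neq (by rw [h0, r3]; simp) r10 r11 c hc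
  · rintro ⟨ρ, hρ⟩
    refine ⟨fun v => ρ (16 * v), fun c hc => ?_⟩
    obtain ⟨i, hi⟩ := List.getElem?_of_mem hc
    have hm : ∀ d ∈ cls c i, ¬ (ρ d.1 = ρ d.2.1 ∧ ρ d.2.1 = ρ d.2.2) := by
      intro d hd
      apply hρ
      simp only [dis, List.mem_flatMap]
      exact ⟨(c, i), by rw [List.mem_zipIdx_iff_getElem?]; exact hi, hd⟩
    have n1 := neq_of (τ := ρ) (x := 16 * c.1) (y := 16 * i + 1) (z := 16 * i + 4) fun d hd =>
      hm d (by simp only [cls, List.mem_cons, List.mem_append]; tauto)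
    have n2 := neq_of (τ := ρ) (x := 16 * c.2.1) (y := 16 * i + 2) (z := 16 * i + 7) fun d hd =>
      hm d (by simp only [cls, List.mem_cons, List.mem_append]; tauto)
    have n3 := neq_of (τ := ρ) (x := 16 * c.2.2) (y := 16 * i + 3) (z := 16 * i + 10) fun d hd =>
      hm d (by simp only [cls, List.mem_cons, List.mem_append]; tauto)
    exact (nae_not _ _ _ _ _ _ n1 n2 n3).1 (hm (16 * i + 1, 16 * i + 2, 16 * i + 3)
      (by simp [cls]))

theorem dis_poly : Poly dis := by
  unfold dis cls neq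
  fun_prop

theorem hardPr_dist : HardPr Dist NAEn :=
  hardI_NAEn.toHardPr.trans dis_poly (fun φ _ => dist_dis φ) fun φ _ => dis_correct φ

/-! ### The instances -/

/-- the list of the variables -/
def vars (φ : List Cl) : List ℕ := φ.flatMap fun c => [c.1, c.2.1, c.2.2]

/-- the code of the base graph -/
def codeA (X : List ℕ) : List (ℕ × ℕ × ℕ) :=
  (0, 0, 1) :: X.flatMap fun v => [(3 * v + 1, 0, v + 2), (3 * v + 2, 1, v + 2)]

/-- the code of the tree -/
def code0 (X : List ℕ) : List (ℕ × ℕ × ℕ) := (0, 0, 1) :: X.map fun v => (3 * v + 1, 0, v + 2)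

/-- the code of the star -/
def code1 (X : List ℕ) : List (ℕ × ℕ × ℕ) := X.map fun v => (3 * v + 1, 0, v + 2)

/-- the code of the graph of a clause -/
def codeB (X : List ℕ) (c : Cl) : List (ℕ × ℕ × ℕ) :=
  (3, c.1 + 2, 1) :: (6, c.2.1 + 2, c.2.2 + 2) :: X.map fun v =>
    (3 * v + 1, if v = c.2.2 then 1 else 0, v + 2)

/-- the instance -/
def inst (φ : List Cl) : List (List (ℕ × ℕ × ℕ)) :=
  (φ.flatMap fun c => [codeA (vars φ), code0 (vars φ), code1 (vars φ), codeB (vars φ) c,
    code1 (vars φ), code0 (vars φ)]) ++ [codeA (vars φ)]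

theorem lookup_map (l : List ℕ) (f : ℕ → ℕ × ℕ) (e : ℕ) :
    (l.map fun a => (a, f a)).lookup e = if e ∈ l then some (f e) else none := by
  induction l with
  | nil => rfl
  | cons a l ih =>
    rw [List.map_cons, List.lookup_cons, ih]
    by_cases h : e = a
    · subst h
      simp
    · have h' : (e == a) = false := by simpa using h
      rw [h']
      simp only [List.mem_cons, h, false_or]

theorem ofCode_map (l : List ℕ) (s t : ℕ → ℕ) :
    ofCode (l.map fun e => (e, s e, t e)) = mkG {e | e ∈ l} s t := by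
  have hl : ∀ e x y, ((l.map fun e => (e, s e, t e)).lookup e = some (x, y) ∨
      (l.map fun e => (e, s e, t e)).lookup e = some (y, x)) ↔
      e ∈ l ∧ ((s e = x ∧ t e = y) ∨ (s e = y ∧ t e = x)) := by
    intro e x y
    rw [lookup_map l (fun e => (s e, t e)) e]
    by_cases h : e ∈ l
    · simp [h]
    · simp [h]
  refine Graph.ext ?_ fun e x y => hl e x y
  ext x
  constructor
  · rintro ⟨e, y, h⟩
    rw [hl] at h
    obtain ⟨h1, ⟨h2, _⟩ | ⟨_, h2⟩⟩ := h
    · exact ⟨e, h1, Or.inl h2⟩
    · exact ⟨e, h1, Or.inr h2⟩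
  · rintro ⟨e, h1, h2 | h2⟩
    · exact ⟨e, t e, (hl _ _ _).2 ⟨h1, Or.inl ⟨h2, rfl⟩⟩⟩
    · exact ⟨e, s e, (hl _ _ _).2 ⟨h1, Or.inr ⟨rfl, h2⟩⟩⟩

/-- the set of the variables -/
def vs (X : List ℕ) : Set ℕ := {v | v ∈ X}

theorem code_A (X : List ℕ) : ofCode (codeA X) = GA (vs X) fun _ => false := by
  have h : codeA X = (0 :: X.flatMap fun v => [3 * v + 1, 3 * v + 2]).map
      fun e => (e, sA (fun _ => false) e, tA e) := by
    rw [codeA, List.map_cons, List.map_flatMap]
    congr 1
    refine congrArg (fun f => X.flatMap f) (funext fun v => ?_)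
    simp only [List.map_cons, List.map_nil, sA1, sA2, tA1, tA2]
    rfl
  rw [h, ofCode_map, GA]
  refine mkG_congr ?_ (fun _ _ => rfl) fun _ _ => rfl
  ext e
  simp only [EA, vs, Set.mem_ofPred_eq, List.mem_cons, List.mem_flatMap, List.not_mem_nil, or_false]

theorem code_0 (X : List ℕ) : ofCode (code0 X) = G0 (vs X) fun _ => false := by
  have h : code0 X = (0 :: X.map fun v => 3 * v + 1).map
      fun e => (e, sA (fun _ => false) e, tA e) := by
    rw [code0, List.map_cons, List.map_map]
    congr 1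
    refine congrArg (fun f => X.map f) (funext fun v => ?_)
    simp only [Function.comp, sA1, tA1]
    rfl
  rw [h, ofCode_map, G0]
  refine mkG_congr ?_ (fun _ _ => rfl) fun _ _ => rfl
  ext e
  simp only [E0, vs, Set.mem_ofPred_eq, List.mem_cons, List.mem_map]
  constructor
  · rintro (h | ⟨v, h1, h2⟩)
    · exact Or.inl h
    · exact Or.inr ⟨v, h1, h2.symm⟩
  · rintro (h | ⟨v, h1, h2⟩)
    · exact Or.inl h
    · exact Or.inr ⟨v, h1, h2.symm⟩

theorem code_1 (X : List ℕ) : ofCode (code1 X) = G1 (vs X) fun _ => false := by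
  have h : code1 X = (X.map fun v => 3 * v + 1).map
      fun e => (e, sA (fun _ => false) e, tA e) := by
    rw [code1, List.map_map]
    refine congrArg (fun f => X.map f) (funext fun v => ?_)
    simp only [Function.comp, sA1, tA1]
    rfl
  rw [h, ofCode_map, G1]
  refine mkG_congr ?_ (fun _ _ => rfl) fun _ _ => rfl
  ext e
  simp only [E1, vs, Set.mem_ofPred_eq, List.mem_map]
  constructor
  · rintro ⟨v, h1, h2⟩
    exact ⟨v, h1, h2.symm⟩
  · rintro ⟨v, h1, h2⟩
    exact ⟨v, h1, h2.symm⟩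

theorem code_B (X : List ℕ) (c : Cl) :
    ofCode (codeB X c) = GB (vs X) (tc c.2.2) c.1 c.2.1 c.2.2 := by
  have h : codeB X c = (3 :: 6 :: X.map fun v => 3 * v + 1).map
      fun e => (e, sB (tc c.2.2) c.1 c.2.1 e, tB (tc c.2.2) c.2.2 e) := by
    rw [codeB, List.map_cons, List.map_cons, List.map_map, sB3, sB6, tB3, tB6]
    congr 1
    · simp [tc, bn]
    · congr 1
      refine congrArg (fun f => X.map f) (funext fun v => ?_)
      simp only [Function.comp, sB_x, tB_x, tc, bn, decide_eq_true_eq]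
  rw [h, ofCode_map, GB]
  refine mkG_congr ?_ (fun _ _ => rfl) fun _ _ => rfl
  ext e
  simp only [EB, vs, Set.mem_ofPred_eq, List.mem_cons, List.mem_map]
  constructor
  · rintro (h | h | ⟨v, h1, h2⟩)
    · exact Or.inl h
    · exact Or.inr (Or.inl h)
    · exact Or.inr (Or.inr ⟨v, h1, h2.symm⟩)
  · rintro (h | h | ⟨v, h1, h2⟩)
    · exact Or.inl h
    · exact Or.inr (Or.inl h)
    · exact Or.inr (Or.inr ⟨v, h1, h2.symm⟩)

theorem inst_sq {γ α : Type} (A F0 F : α) (B : γ → α) (cl : List γ) :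
    (cl.flatMap fun c => [A, F0, F, B c, F, F0]) ++ [A] = sq A F0 F B cl := by
  induction cl with
  | nil => rfl
  | cons c cl ih =>
    rw [List.flatMap_cons, sq, ← ih]
    simp only [List.cons_append, List.nil_append]

theorem matroids_inst (φ : List Cl) :
    matroids (inst φ) = sq (mA (vs (vars φ))) (m0 (vs (vars φ))) (m1 (vs (vars φ)))
      (mB (vs (vars φ))) φ := by
  rw [matroids, inst, inst_sq, sq_map]
  simp only [code_A, code_0, code_1, code_B]
  rfl

theorem good_of {φ : List Cl} (h : Dist φ) : ∀ c ∈ φ, Good (vs (vars φ)) c := by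
  intro c hc
  obtain ⟨h1, h2, h3⟩ := h c hc
  have hm : ∀ v, v = c.1 ∨ v = c.2.1 ∨ v = c.2.2 → v ∈ vs (vars φ) := by
    intro v hv
    simp only [vs, vars, Set.mem_ofPred_eq, List.mem_flatMap]
    exact ⟨c, hc, by simpa using hv⟩
  exact ⟨hm _ (Or.inl rfl), hm _ (Or.inr (Or.inl rfl)), hm _ (Or.inr (Or.inr rfl)), h1, h2, h3⟩

theorem inst_correct {φ : List Cl} (h : Dist φ) :
    NAEn φ ↔ SimGraphic (matroids (inst φ)) := by
  rw [matroids_inst]
  constructor
  · rintro ⟨τ, hτ⟩
    exact complete (by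
      have : vs (vars φ) = ((vars φ).toFinset : Set ℕ) := by
        ext v
        simp [vs]
      rw [this]
      exact Finset.finite_toSet _) (good_of h) hτ
  · intro h'
    exact sound (good_of h) h'

theorem inst_temporal (φ : List Cl) : Temporal (matroids (inst φ)) := by
  rw [matroids_inst]
  exact temporal

theorem inst_poly : Poly inst := by
  unfold inst codeA code0 code1 codeB vars
  fun_prop

end Pool.Agent.Q230.TGM
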