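import Pool.Agent.Q230.TGM.End

/-!
# The structure of the graphs in a temporal sequence
-/

set_option autoImplicit false

open Classical

namespace Pool.Agent.Q230.TGM

open Graph

theorem end_of_nonloop {G : Graph ℕ ℕ} {e a b z : ℕ} (h : G.IsLink e a b)
    (hz : G.IsNonloopAt e z) : z = a ∨ z = b := by
  obtain ⟨y, _, h1⟩ := hz
  rcases h.eq_and_eq_or_eq_and_eq h1 with ⟨h2, _⟩ | ⟨_, h2⟩
  · exact Or.inl h2.symm
  · exact Or.inr h2.symm

theorem nonloop_left {G : Graph ℕ ℕ} {e a b : ℕ} (h : G.IsLink e a b) (hne : a ≠ b) :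
    G.IsNonloopAt e a := ⟨b, hne.symm, h⟩

theorem nonloop_right {G : Graph ℕ ℕ} {e a b : ℕ} (h : G.IsLink e a b) (hne : a ≠ b) :
    G.IsNonloopAt e b := ⟨a, hne, h.symm⟩

/-- an edge of a forest is not a loop -/
theorem exists_link {G : Graph ℕ ℕ} {F : Finset ℕ} (h : Forest G F) {e : ℕ} (he : e ∈ F) :
    ∃ a b, G.IsLink e a b ∧ a ≠ b := by
  obtain ⟨a, b, h1⟩ := G.exists_isLink_of_mem_edgeSet (h.1 he)
  refine ⟨a, b, h1, ?_⟩
  rintro rfl
  exact h.2 {e} (by simpa using he) ⟨e, by simp⟩ (even_single h1)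

/-- two edges of a forest are not parallel -/
theorem not_parallel {G : Graph ℕ ℕ} {F : Finset ℕ} (h : Forest G F) {e e' : ℕ} (he : e ∈ F)
    (he' : e' ∈ F) (hne : e ≠ e') {a b c d : ℕ} (h1 : G.IsLink e a b) (h2 : G.IsLink e' c d) :
    ¬ (a = c ∧ b = d) ∧ ¬ (a = d ∧ b = c) := by
  have hs : ({e, e'} : Finset ℕ) ⊆ F := by
    intro z hz
    simp only [Finset.mem_insert, Finset.mem_singleton] at hz
    rcases hz with rfl | rfl <;> assumption
  constructor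
  · rintro ⟨rfl, rfl⟩
    exact h.2 _ hs ⟨e, by simp⟩ (even_pair hne h1 h2)
  · rintro ⟨rfl, rfl⟩
    exact h.2 _ hs ⟨e, by simp⟩ (even_pair hne h1 h2.symm)

/-- the edges `3 v + 1` are pendant edges at `a` or `b` -/
def Star1 (G : Graph ℕ ℕ) (X : Set ℕ) (a b : ℕ) (σ w : ℕ → ℕ) : Prop :=
  ∀ v ∈ X, G.IsLink (3 * v + 1) (σ v) (w v) ∧ (σ v = a ∨ σ v = b) ∧ w v ≠ a ∧ w v ≠ b ∧
    ∀ u ∈ X, w u = w v → u = v

theorem tri_aux {a b c d p q : ℕ} (hab : a ≠ b) (hcd : c ≠ d)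
    (A1 : (a = c ∨ a = d) ∨ (a = p ∨ a = q)) (A2 : (b = c ∨ b = d) ∨ (b = p ∨ b = q))
    (B1 : (c = a ∨ c = b) ∨ (c = p ∨ c = q)) (B2 : (d = a ∨ d = b) ∨ (d = p ∨ d = q))
    (N1 : ¬ (a = c ∧ b = d) ∧ ¬ (a = d ∧ b = c))
    (N3 : ¬ (c = p ∧ d = q) ∧ ¬ (c = q ∧ d = p)) :
    (((c = a ∧ (p = b ∨ q = b)) ∨ (c = b ∧ (p = a ∨ q = a))) ∧ d ≠ a ∧ d ≠ b ∧
      (d = p ∨ d = q)) ∨ (((d = a ∧ (p = b ∨ q = b)) ∨ (d = b ∧ (p = a ∨ q = a))) ∧ c ≠ a ∧ c ≠ b ∧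
      (c = p ∨ c = q)) := by
  by_cases hc : c = a ∨ c = b
  · have hd : ¬ (d = a ∨ d = b) := by
      rintro (h | h) <;> rcases hc with h' | h'
      · exact hcd (h'.trans h.symm)
      · exact N1.2 ⟨h.symm, h'.symm⟩
      · exact N1.1 ⟨h'.symm, h.symm⟩
      · exact hcd (h'.trans h.symm)
    refine Or.inl ⟨?_, fun h => hd (Or.inl h), fun h => hd (Or.inr h), B2.resolve_left hd⟩
    rcases hc with h | h
    · refine Or.inl ⟨h, ?_⟩
      rcases A2 with (k | k) | (k | k)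
      · exact absurd (h.symm.trans k.symm) hab
      · exact absurd (Or.inr k.symm) hd
      · exact Or.inl k.symm
      · exact Or.inr k.symm
    · refine Or.inr ⟨h, ?_⟩
      rcases A1 with (k | k) | (k | k)
      · exact absurd (k.trans h) hab
      · exact absurd (Or.inl k.symm) hd
      · exact Or.inl k.symm
      · exact Or.inr k.symm
  · have hc' := B1.resolve_left hc
    have hd : d = a ∨ d = b := by
      by_contra hd
      have hd' := B2.resolve_left hd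
      rcases hc' with h | h <;> rcases hd' with h' | h'
      · exact hcd (h.trans h'.symm)
      · exact N3.1 ⟨h, h'⟩
      · exact N3.2 ⟨h, h'⟩
      · exact hcd (h.trans h'.symm)
    refine Or.inr ⟨?_, fun h => hc (Or.inl h), fun h => hc (Or.inr h), hc'⟩
    rcases hd with h | h
    · refine Or.inl ⟨h, ?_⟩
      rcases A2 with (k | k) | (k | k)
      · exact absurd (Or.inr k.symm) hc
      · exact absurd (h.symm.trans k.symm) hab
      · exact Or.inl k.symm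
      · exact Or.inr k.symm
    · refine Or.inr ⟨h, ?_⟩
      rcases A1 with (k | k) | (k | k)
      · exact absurd (Or.inl k.symm) hc
      · exact absurd (k.trans h) hab
      · exact Or.inl k.symm
      · exact Or.inr k.symm

theorem triangle {G : Graph ℕ ℕ} {e₀ e₁ e₂ a b : ℕ} (h0 : G.IsLink e₀ a b) (hab : a ≠ b)
    (hev : EvenSet G {e₀, e₁, e₂}) (h01 : Forest G {e₀, e₁}) (h02 : Forest G {e₀, e₂})
    (h12 : Forest G {e₁, e₂}) (n01 : e₀ ≠ e₁) (n02 : e₀ ≠ e₂) (n12 : e₁ ≠ e₂) :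
    ∃ σ ρ w, G.IsLink e₁ σ w ∧ G.IsLink e₂ ρ w ∧ ((σ = a ∧ ρ = b) ∨ (σ = b ∧ ρ = a)) ∧ w ≠ a ∧
      w ≠ b := by
  obtain ⟨c, d, h1, hcd⟩ := exists_link h01 (e := e₁) (by simp)
  obtain ⟨p, q, h2, hpq⟩ := exists_link h02 (e := e₂) (by simp)
  have N1 := not_parallel h01 (by simp) (by simp) n01 h0 h1
  have N2 := not_parallel h02 (by simp) (by simp) n02 h0 h2
  have N3 := not_parallel h12 (by simp) (by simp) n12 h1 h2
  have F0 : ∀ z, G.IsNonloopAt e₀ z → (z = c ∨ z = d) ∨ (z = p ∨ z = q) := by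
    intro z hz
    obtain ⟨e', h3, h4, h5⟩ := exists_other hev (e := e₀) (by simp) hz
    simp only [Finset.mem_insert, Finset.mem_singleton] at h3
    rcases h3 with rfl | rfl | rfl
    · exact absurd rfl h4
    · exact Or.inl (end_of_nonloop h1 h5)
    · exact Or.inr (end_of_nonloop h2 h5)
  have F1 : ∀ z, G.IsNonloopAt e₁ z → (z = a ∨ z = b) ∨ (z = p ∨ z = q) := by
    intro z hz
    obtain ⟨e', h3, h4, h5⟩ := exists_other hev (e := e₁) (by simp) hz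
    simp only [Finset.mem_insert, Finset.mem_singleton] at h3
    rcases h3 with rfl | rfl | rfl
    · exact Or.inl (end_of_nonloop h0 h5)
    · exact absurd rfl h4
    · exact Or.inr (end_of_nonloop h2 h5)
  have F2 : ∀ z, G.IsNonloopAt e₂ z → (z = a ∨ z = b) ∨ (z = c ∨ z = d) := by
    intro z hz
    obtain ⟨e', h3, h4, h5⟩ := exists_other hev (e := e₂) (by simp) hz
    simp only [Finset.mem_insert, Finset.mem_singleton] at h3
    rcases h3 with rfl | rfl | rfl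
    · exact Or.inl (end_of_nonloop h0 h5)
    · exact Or.inr (end_of_nonloop h1 h5)
    · exact absurd rfl h4
  have A1 := F0 a (nonloop_left h0 hab)
  have A2 := F0 b (nonloop_right h0 hab)
  have B1 := F1 c (nonloop_left h1 hcd)
  have B2 := F1 d (nonloop_right h1 hcd)
  have key := tri_aux hab hcd A1 A2 B1 B2 N1 N3
  have hp : ∀ ρ w, ρ ≠ w → (p = ρ ∨ q = ρ) → (w = p ∨ w = q) → G.IsLink e₂ ρ w := by
    intro ρ w h3 h4 h5
    rcases h4 with rfl | rfl <;> rcases h5 with rfl | rfl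
    · exact absurd rfl h3
    · exact h2
    · exact h2.symm
    · exact absurd rfl h3
  rcases key with ⟨⟨rfl, h3⟩ | ⟨rfl, h3⟩, h4, h5, h6⟩ | ⟨⟨rfl, h3⟩ | ⟨rfl, h3⟩, h4, h5, h6⟩
  · exact ⟨c, b, d, h1, hp b d (Ne.symm h5) h3 h6, Or.inl ⟨rfl, rfl⟩, h4, h5⟩
  · exact ⟨c, a, d, h1, hp a d (Ne.symm h4) h3 h6, Or.inr ⟨rfl, rfl⟩, h4, h5⟩
  · exact ⟨d, b, c, h1.symm, hp b c (Ne.symm h5) h3 h6, Or.inl ⟨rfl, rfl⟩, h4, h5⟩
  · exact ⟨d, a, c, h1.symm, hp a c (Ne.symm h4) h3 h6, Or.inr ⟨rfl, rfl⟩, h4, h5⟩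

/-- the structure of the graph of the base matroid -/
theorem starA {G : Graph ℕ ℕ} {X : Set ℕ} {v₀ : ℕ} (hv₀ : v₀ ∈ X)
    (hev : ∀ v ∈ X, EvenSet G {0, 3 * v + 1, 3 * v + 2})
    (h01 : ∀ v ∈ X, Forest G {0, 3 * v + 1}) (h02 : ∀ v ∈ X, Forest G {0, 3 * v + 2})
    (h12 : ∀ v ∈ X, Forest G {3 * v + 1, 3 * v + 2})
    (h3 : ∀ u ∈ X, ∀ v ∈ X, u ≠ v → Forest G {0, 3 * u + 1, 3 * v + 1}) :
    ∃ (a b : ℕ) (σ ρ w : ℕ → ℕ), a ≠ b ∧ G.IsLink 0 a b ∧ Star1 G X a b σ w ∧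
      ∀ v ∈ X, G.IsLink (3 * v + 2) (ρ v) (w v) ∧
        ((σ v = a ∧ ρ v = b) ∨ (σ v = b ∧ ρ v = a)) := by
  obtain ⟨a, b, h0, hab⟩ := exists_link (h01 v₀ hv₀) (e := 0) (by simp)
  have h4 : ∀ v, ∃ σ ρ w, v ∈ X → G.IsLink (3 * v + 1) σ w ∧ G.IsLink (3 * v + 2) ρ w ∧
      ((σ = a ∧ ρ = b) ∨ (σ = b ∧ ρ = a)) ∧ w ≠ a ∧ w ≠ b := by
    intro v
    by_cases hv : v ∈ X
    · obtain ⟨σ, ρ, w, h5⟩ := triangle h0 hab (hev v hv) (h01 v hv) (h02 v hv) (h12 v hv)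
        (by omega) (by omega) (by omega)
      exact ⟨σ, ρ, w, fun _ => h5⟩
    · exact ⟨0, 0, 0, fun h => absurd h hv⟩
  choose σ ρ w h4 using h4
  refine ⟨a, b, σ, ρ, w, hab, h0, fun v hv => ?_, fun v hv => ⟨(h4 v hv).2.1, (h4 v hv).2.2.1⟩⟩
  obtain ⟨h5, h6, h7, h8, h9⟩ := h4 v hv
  refine ⟨h5, by tauto, h8, h9, fun u hu huv => ?_⟩
  by_contra hne
  obtain ⟨h5', h6', h7', h8', h9'⟩ := h4 u hu
  have hF := h3 u hu v hv hne
  rw [huv] at h5'
  by_cases hs : σ u = σ v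
  · rw [hs] at h5'
    exact (not_parallel hF (e := 3 * u + 1) (e' := 3 * v + 1) (by simp) (by simp) (by omega)
      h5' h5).1 ⟨rfl, rfl⟩
  · have h10 : G.IsLink 0 (σ u) (σ v) := by
      rcases h7 with ⟨h, _⟩ | ⟨h, _⟩ <;> rcases h7' with ⟨h', _⟩ | ⟨h', _⟩
      · exact absurd (h'.trans h.symm) hs
      · rw [h, h']
        exact h0.symm
      · rw [h, h']
        exact h0
      · exact absurd (h'.trans h.symm) hs
    exact hF.2 _ subset_rfl ⟨0, by simp⟩ (even_triple (by omega) (by omega) (by omega) h10 h5' h5)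

/-- the star structure is inherited by minors in which nothing is contracted -/
theorem Star1.map {G H : Graph ℕ ℕ} {X : Set ℕ} {a b : ℕ} {σ w : ℕ → ℕ} {φ : ℕ → ℕ}
    (h : Star1 H X a b σ w) (ha : a ∈ V(H)) (hb : b ∈ V(H)) (hle : G ≤ H.map φ) (hi : Inj H φ)
    (hE : ∀ v ∈ X, 3 * v + 1 ∈ E(G)) :
    Star1 G X (φ a) (φ b) (fun v => φ (σ v)) (fun v => φ (w v)) := by
  intro v hv
  obtain ⟨h1, h2, h3, h4, h5⟩ := h v hv
  have hw := h1.right_mem
  refine ⟨isLink_of_minor hle (hE v hv) h1, ?_, fun h6 => h3 (hi _ hw _ ha h6),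
    fun h6 => h4 (hi _ hw _ hb h6), fun u hu h6 => h5 u hu ?_⟩
  · rcases h2 with h2 | h2
    · exact Or.inl (congrArg φ h2)
    · exact Or.inr (congrArg φ h2)
  · exact hi _ (h u hu).1.right_mem _ hw h6

/-- only an edge between `a` and `b` is contracted -/
theorem joined_ab {H : Graph ℕ ℕ} {C : Set ℕ} {a b : ℕ}
    (hC : ∀ e ∈ C, ∀ x y, H.IsLink e x y → (x = a ∧ y = b) ∨ (x = b ∧ y = a)) {u v : ℕ}
    (h : Joined H C u v) : u = v ∨ ((u = a ∨ u = b) ∧ (v = a ∨ v = b)) := by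
  induction h with
  | refl => exact Or.inl rfl
  | tail _ h2 ih =>
    obtain ⟨e, he, h3⟩ := h2
    have h4 := hC e he _ _ h3
    right
    rcases ih with rfl | ih
    · tauto
    · exact ⟨ih.1, by tauto⟩

theorem pigeon {x y z p q : ℕ} (hxy : x ≠ y) (hyz : y ≠ z) (hxz : x ≠ z) (h1 : x = p ∨ x = q)
    (h2 : y = p ∨ y = q) (h3 : z = p ∨ z = q) : False := by
  omega

/-- An end of a pendant edge of the gadget is an end of one of the edges `3` and `6`. -/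
theorem leaf_end {M : Graph ℕ ℕ} {x₁ x₂ x₃ s₁ s₂ s₃ w₁ w₂ w₃ g₁ g₂ h₁ h₂ : ℕ}
    (hev : EvenSet M {x₁, x₂, x₃, 3, 6}) (l1 : M.IsLink x₁ s₁ w₁) (l2 : M.IsLink x₂ s₂ w₂)
    (l3 : M.IsLink x₃ s₃ w₃) (lg : M.IsLink 3 g₁ g₂) (lh : M.IsLink 6 h₁ h₂) (h1 : s₁ ≠ w₁)
    (h2 : w₁ ≠ s₂) (h3 : w₁ ≠ w₂) (h4 : w₁ ≠ s₃) (h5 : w₁ ≠ w₃) :
    ((w₁ = g₁ ∨ w₁ = g₂) ∧ g₁ ≠ g₂) ∨ ((w₁ = h₁ ∨ w₁ = h₂) ∧ h₁ ≠ h₂) := by
  obtain ⟨e', m1, m2, m3⟩ := exists_other hev (e := x₁) (by simp) (nonloop_right l1 h1)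
  simp only [Finset.mem_insert, Finset.mem_singleton] at m1
  have hloop : ∀ {e a b : ℕ}, M.IsLink e a b → M.IsNonloopAt e w₁ → (w₁ = a ∨ w₁ = b) ∧ a ≠ b := by
    intro e a b hl hz
    refine ⟨end_of_nonloop hl hz, fun h => ?_⟩
    rw [h] at hl
    obtain ⟨y, hy, h'⟩ := hz
    rcases hl.eq_and_eq_or_eq_and_eq h' with ⟨m4, m5⟩ | ⟨m4, m5⟩
    · exact hy (m5.symm.trans m4)
    · exact hy (m4.symm.trans m5)
  rcases m1 with rfl | rfl | rfl | rfl | rfl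
  · exact absurd rfl m2
  · rcases (hloop l2 m3).1 with h | h
    · exact absurd h h2
    · exact absurd h h3
  · rcases (hloop l3 m3).1 with h | h
    · exact absurd h h4
    · exact absurd h h5
  · exact Or.inl (hloop lg m3)
  · exact Or.inr (hloop lh m3)

/-- If the three pendant edges have a common end, then it is an end of one of the edges `3` and
`6`. -/
theorem centre_end {M : Graph ℕ ℕ} {x₁ x₂ x₃ s w₁ w₂ w₃ g₁ g₂ h₁ h₂ : ℕ}
    (hev : EvenSet M {x₁, x₂, x₃, 3, 6}) (l1 : M.IsLink x₁ s w₁) (l2 : M.IsLink x₂ s w₂)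
    (l3 : M.IsLink x₃ s w₃) (lg : M.IsLink 3 g₁ g₂) (lh : M.IsLink 6 h₁ h₂) (h1 : s ≠ w₁)
    (h2 : s ≠ w₂) (h3 : s ≠ w₃) (n1 : x₁ ≠ x₂) (n2 : x₁ ≠ x₃) (n3 : x₂ ≠ x₃) :
    (s = g₁ ∨ s = g₂) ∨ (s = h₁ ∨ s = h₂) := by
  by_contra hno
  push Not at hno
  have hfil : ({x₁, x₂, x₃, 3, 6} : Finset ℕ).filter
      (fun e => M.IsNonloopAt e s) = {x₁, x₂, x₃} := by
    ext e
    simp only [Finset.mem_filter, Finset.mem_insert, Finset.mem_singleton]
    constructor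
    · rintro ⟨m1 | m1 | m1 | m1 | m1, m2⟩
      · exact Or.inl m1
      · exact Or.inr (Or.inl m1)
      · exact Or.inr (Or.inr m1)
      · rw [m1] at m2
        rcases end_of_nonloop lg m2 with h | h
        · exact absurd h hno.1.1
        · exact absurd h hno.1.2
      · rw [m1] at m2
        rcases end_of_nonloop lh m2 with h | h
        · exact absurd h hno.2.1
        · exact absurd h hno.2.2
    · rintro (rfl | rfl | rfl)
      · exact ⟨Or.inl rfl, nonloop_left l1 h1⟩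
      · exact ⟨Or.inr (Or.inl rfl), nonloop_left l2 h2⟩
      · exact ⟨Or.inr (Or.inr (Or.inl rfl)), nonloop_left l3 h3⟩
  have hev0 := hev s
  rw [hfil, Finset.card_insert_of_notMem (by
    simp only [Finset.mem_insert, Finset.mem_singleton]; tauto),
    Finset.card_insert_of_notMem (by simpa using n3), Finset.card_singleton] at hev0
  exact absurd hev0 (by decide)

/-- The gadget of a clause, in terms of the contracted graph. -/
theorem gadget_core {M : Graph ℕ ℕ} {x₁ x₂ x₃ s₁ s₂ s₃ w₁ w₂ w₃ g₁ g₂ h₁ h₂ : ℕ}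
    (hev : EvenSet M {x₁, x₂, x₃, 3, 6}) (l1 : M.IsLink x₁ s₁ w₁) (l2 : M.IsLink x₂ s₂ w₂)
    (l3 : M.IsLink x₃ s₃ w₃) (lg : M.IsLink 3 g₁ g₂) (lh : M.IsLink 6 h₁ h₂)
    (a11 : s₁ ≠ w₁) (a12 : s₁ ≠ w₂) (a13 : s₁ ≠ w₃) (a21 : s₂ ≠ w₁) (a22 : s₂ ≠ w₂)
    (a23 : s₂ ≠ w₃) (a31 : s₃ ≠ w₁) (a32 : s₃ ≠ w₂) (a33 : s₃ ≠ w₃) (w12 : w₁ ≠ w₂)
    (w13 : w₁ ≠ w₃) (w23 : w₂ ≠ w₃) (n1 : x₁ ≠ x₂) (n2 : x₁ ≠ x₃) (n3 : x₂ ≠ x₃) :
    g₁ ≠ g₂ ∧ h₁ ≠ h₂ ∧ (s₁ = s₂ → s₂ = s₃ → ∃ w, (w = w₁ ∨ w = w₂ ∨ w = w₃) ∧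
      ((g₁ = s₁ ∧ g₂ = w) ∨ (g₂ = s₁ ∧ g₁ = w) ∨ (h₁ = s₁ ∧ h₂ = w) ∨ (h₂ = s₁ ∧ h₁ = w))) := by
  have W1 := leaf_end hev l1 l2 l3 lg lh a11 a21.symm w12 a31.symm w13
  have hev2 : EvenSet M {x₂, x₁, x₃, 3, 6} := by
    rwa [Finset.insert_comm]
  have W2 := leaf_end hev2 l2 l1 l3 lg lh a22 a12.symm w12.symm a32.symm w23
  have hev3 : EvenSet M {x₃, x₁, x₂, 3, 6} := by
    have : ({x₃, x₁, x₂, 3, 6} : Finset ℕ) = {x₁, x₂, x₃, 3, 6} := by
      ext z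
      simp only [Finset.mem_insert, Finset.mem_singleton]
      tauto
    rwa [this]
  have W3 := leaf_end hev3 l3 l1 l2 lg lh a33 a13.symm w13.symm a23.symm w23.symm
  have ng : g₁ ≠ g₂ := by
    intro h
    have k1 : w₁ = h₁ ∨ w₁ = h₂ := (W1.resolve_left fun h' => h'.2 h).1
    have k2 : w₂ = h₁ ∨ w₂ = h₂ := (W2.resolve_left fun h' => h'.2 h).1
    have k3 : w₃ = h₁ ∨ w₃ = h₂ := (W3.resolve_left fun h' => h'.2 h).1
    exact pigeon w12 w23 w13 k1 k2 k3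
  have nh : h₁ ≠ h₂ := by
    intro h
    have k1 : w₁ = g₁ ∨ w₁ = g₂ := (W1.resolve_right fun h' => h'.2 h).1
    have k2 : w₂ = g₁ ∨ w₂ = g₂ := (W2.resolve_right fun h' => h'.2 h).1
    have k3 : w₃ = g₁ ∨ w₃ = g₂ := (W3.resolve_right fun h' => h'.2 h).1
    exact pigeon w12 w23 w13 k1 k2 k3
  refine ⟨ng, nh, ?_⟩
  rintro rfl rfl
  have hc := centre_end hev l1 l2 l3 lg lh a11 a12 a13 n1 n2 n3
  have V1 := W1.imp (fun h => h.1) fun h => h.1
  have V2 := W2.imp (fun h => h.1) fun h => h.1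
  have V3 := W3.imp (fun h => h.1) fun h => h.1
  clear W1 W2 W3 hev hev2 hev3 l1 l2 l3 lg lh a21 a22 a23 a31 a32 a33
  by_contra hno
  push Not at hno
  have q1 := hno w₁ (Or.inl rfl)
  have q2 := hno w₂ (Or.inr (Or.inl rfl))
  have q3 := hno w₃ (Or.inr (Or.inr rfl))
  rcases hc with (h | h) | (h | h)
  · refine pigeon w12 w23 w13 (p := h₁) (q := h₂) ?_ ?_ ?_
    · rcases V1 with (k | k) | k
      · exact absurd (h.trans k.symm) a11
      · exact absurd k.symm (q1.1 h.symm)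
      · exact k
    · rcases V2 with (k | k) | k
      · exact absurd (h.trans k.symm) a12
      · exact absurd k.symm (q2.1 h.symm)
      · exact k
    · rcases V3 with (k | k) | k
      · exact absurd (h.trans k.symm) a13
      · exact absurd k.symm (q3.1 h.symm)
      · exact k
  · refine pigeon w12 w23 w13 (p := h₁) (q := h₂) ?_ ?_ ?_
    · rcases V1 with (k | k) | k
      · exact absurd k.symm (q1.2.1 h.symm)
      · exact absurd (h.trans k.symm) a11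
      · exact k
    · rcases V2 with (k | k) | k
      · exact absurd k.symm (q2.2.1 h.symm)
      · exact absurd (h.trans k.symm) a12
      · exact k
    · rcases V3 with (k | k) | k
      · exact absurd k.symm (q3.2.1 h.symm)
      · exact absurd (h.trans k.symm) a13
      · exact k
  · refine pigeon w12 w23 w13 (p := g₁) (q := g₂) ?_ ?_ ?_
    · rcases V1 with k | (k | k)
      · exact k
      · exact absurd (h.trans k.symm) a11
      · exact absurd k.symm (q1.2.2.1 h.symm)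
    · rcases V2 with k | (k | k)
      · exact k
      · exact absurd (h.trans k.symm) a12
      · exact absurd k.symm (q2.2.2.1 h.symm)
    · rcases V3 with k | (k | k)
      · exact k
      · exact absurd (h.trans k.symm) a13
      · exact absurd k.symm (q3.2.2.1 h.symm)
  · refine pigeon w12 w23 w13 (p := g₁) (q := g₂) ?_ ?_ ?_
    · rcases V1 with k | (k | k)
      · exact k
      · exact absurd k.symm (q1.2.2.2 h.symm)
      · exact absurd (h.trans k.symm) a11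
    · rcases V2 with k | (k | k)
      · exact k
      · exact absurd k.symm (q2.2.2.2 h.symm)
      · exact absurd (h.trans k.symm) a12
    · rcases V3 with k | (k | k)
      · exact k
      · exact absurd k.symm (q3.2.2.2 h.symm)
      · exact absurd (h.trans k.symm) a13

/-- The gadget of a clause. -/
theorem gadget {G H : Graph ℕ ℕ} {X : Set ℕ} {a b : ℕ} {σ w : ℕ → ℕ} {i j k : ℕ} (hi : i ∈ X)
    (hj : j ∈ X) (hk : k ∈ X) (hij : i ≠ j) (hjk : j ≠ k) (hik : i ≠ k)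
    (hs : Star1 G X a b σ w) (hGH : GMinor G H)
    (hE : ∀ e, e ∈ E(H) → e ∉ E(G) → e = 3 ∨ e = 6)
    (hev : EvenSet H {3 * i + 1, 3 * j + 1, 3 * k + 1, 3, 6}) (h3E : 3 ∈ E(H)) (h6E : 6 ∈ E(H))
    (hn3 : ∀ v ∈ X, ¬ EvenSet H {3 * v + 1, 3}) (hn6 : ∀ v ∈ X, ¬ EvenSet H {3 * v + 1, 6}) :
    ∃ φ, G ≤ H.map φ ∧ Inj H φ ∧ a ≠ b ∧ ¬ (σ i = σ j ∧ σ j = σ k) := by
  obtain ⟨C, φ, hC1, hC2, hle⟩ := hGH
  have hw : ∀ u ∈ X, ∀ v ∈ X, σ u ≠ w v := by
    intro u hu v hv h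
    obtain ⟨_, _, v3, v4, _⟩ := hs v hv
    rcases (hs u hu).2.1 with h' | h'
    · exact v3 (h.symm.trans h')
    · exact v4 (h.symm.trans h')
  have hww : ∀ u ∈ X, ∀ v ∈ X, u ≠ v → w u ≠ w v := fun u hu v hv hne h =>
    hne ((hs v hv).2.2.2.2 u hu h)
  have l1 := (hs i hi).1.mono hle
  have l2 := (hs j hj).1.mono hle
  have l3 := (hs k hk).1.mono hle
  obtain ⟨g1, g2, hg⟩ := H.exists_isLink_of_mem_edgeSet h3E
  obtain ⟨h1, h2, hh⟩ := H.exists_isLink_of_mem_edgeSet h6E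
  have hKE : ((({3 * i + 1, 3 * j + 1, 3 * k + 1, 3, 6} : Finset ℕ)) : Set ℕ) ⊆ E(H) := by
    intro e he
    simp only [Finset.coe_insert, Finset.coe_singleton, Set.mem_insert_iff,
      Set.mem_singleton_iff] at he
    rcases he with rfl | rfl | rfl | rfl | rfl
    · exact l1.edge_mem
    · exact l2.edge_mem
    · exact l3.edge_mem
    · exact h3E
    · exact h6E
  obtain ⟨ng, nh, hpar⟩ := gadget_core (even_map hKE hev φ) l1 l2 l3 (hg.map φ) (hh.map φ)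
    (hw i hi i hi) (hw i hi j hj) (hw i hi k hk) (hw j hj i hi) (hw j hj j hj) (hw j hj k hk)
    (hw k hk i hi) (hw k hk j hj) (hw k hk k hk) (hww i hi j hj hij) (hww i hi k hk hik)
    (hww j hj k hk hjk) (by omega) (by omega) (by omega)
  have hinj : Inj H φ := by
    refine inj_of hC2 fun e he heH => ?_
    have heG : e ∉ E(G) := fun h => Set.disjoint_left.1 hC1 he h
    rcases hE e heH heG with rfl | rfl
    · exact ng ((hC2 g1 hg.left_mem g2 hg.right_mem).2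
        (Relation.ReflTransGen.single ⟨3, he, hg⟩))
    · exact nh ((hC2 h1 hh.left_mem h2 hh.right_mem).2
        (Relation.ReflTransGen.single ⟨6, he, hh⟩))
  -- not all equal
  have NAE : ¬ (σ i = σ j ∧ σ j = σ k) := by
    rintro ⟨s1, s2⟩
    have par : ∀ v ∈ X, ∀ e x y, (e = 3 ∨ e = 6) → H.IsLink e x y →
        ¬ (φ x = σ v ∧ φ y = w v) := by
      rintro v hv e x y he hl ⟨m1, m2⟩
      obtain ⟨x', y', m3, m4, m5⟩ := exists_of_minor hle (hs v hv).1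
      have m6 := hinj x hl.left_mem x' m3.left_mem (m1.trans m4.symm)
      have m7 := hinj y hl.right_mem y' m3.right_mem (m2.trans m5.symm)
      subst m6 m7
      rcases he with rfl | rfl
      · exact hn3 v hv (even_pair (by omega) m3 hl)
      · exact hn6 v hv (even_pair (by omega) m3 hl)
    obtain ⟨z, hz, hq⟩ := hpar s1 s2
    have : ∃ v ∈ X, σ i = σ v ∧ z = w v := by
      rcases hz with h | h | h
      · exact ⟨i, hi, rfl, h⟩
      · exact ⟨j, hj, s1, h⟩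
      · exact ⟨k, hk, s1.trans s2, h⟩
    obtain ⟨v, hv, hv1, hv2⟩ := this
    rw [hv1, hv2] at hq
    rcases hq with hq | hq | hq | hq
    · exact par v hv 3 g1 g2 (Or.inl rfl) hg hq
    · exact par v hv 3 g2 g1 (Or.inl rfl) hg.symm hq
    · exact par v hv 6 h1 h2 (Or.inr rfl) hh hq
    · exact par v hv 6 h2 h1 (Or.inr rfl) hh.symm hq
  refine ⟨φ, hle, hinj, ?_, NAE⟩
  rintro rfl
  have q : ∀ v ∈ X, σ v = a := fun v hv => or_self_iff.1 (hs v hv).2.1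
  exact NAE ⟨(q i hi).trans (q j hj).symm, (q j hj).trans (q k hk).symm⟩

end Pool.Agent.Q230.TGM
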